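import Mathlib

/-!
# Types of tuples in groups, homogeneity, affine groups

* `LG` is the first-order language of groups, `SameType u v` says that the tuples `u`, `v` satisfy
  the same formulas of this language, `Homogeneous G` that tuples of the same type are related by
  an automorphism.
* `Aff T F` is the semidirect product `T ⋊ F` of an abelian group `T` (written additively) by a
  group `F` acting on it.
-/

set_option autoImplicit false
set_option linter.unusedSectionVars false

open FirstOrder

namespace Pool.Agent.Q317.HC

/-- The function symbols of the language of groups. -/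
inductive GFun : ℕ → Type
  | mul : GFun 2
  | inv : GFun 1
  | one : GFun 0

/-- The first-order language of groups: multiplication, inverse, identity. -/
def LG : FirstOrder.Language := ⟨GFun, fun _ => Empty⟩

/-- A group as a structure of the language of groups. -/
instance grpStructure (G : Type) [Group G] : LG.Structure G where
  funMap := fun {_} f => match f with
    | .mul => fun x => x 0 * x 1
    | .inv => fun x => (x 0)⁻¹
    | .one => fun _ => 1
  RelMap := fun r _ => r.elim

/-- The tuples `u` and `v` of elements of the group `G` satisfy the same first-order formulas of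
the language of groups. -/
def SameType {G : Type} [Group G] {k : ℕ} (u v : Fin k → G) : Prop :=
  ∀ φ : LG.Formula (Fin k), φ.Realize u ↔ φ.Realize v

/-- A group is homogeneous if any two tuples of the same type are related by an automorphism. -/
def Homogeneous (G : Type) [Group G] : Prop :=
  ∀ (k : ℕ) (u v : Fin k → G), SameType u v → ∃ σ : G ≃* G, ∀ i, σ (u i) = v i

/-- An isomorphism of groups is an isomorphism of structures. -/
def toLG {G H : Type} [Group G] [Group H] (e : G ≃* H) : G ≃[LG] H where
  toEquiv := e.toEquiv
  map_fun' := by
    intro n f x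
    cases f with
    | mul => exact map_mul e _ _
    | inv => exact map_inv e _
    | one => exact map_one e
  map_rel' := by
    intro n r
    exact r.elim

theorem realize_iso {G H : Type} [Group G] [Group H] (e : G ≃* H) {k : ℕ}
    (φ : LG.Formula (Fin k)) (u : Fin k → G) : φ.Realize (fun i => e (u i)) ↔ φ.Realize u :=
  FirstOrder.Language.StrongHomClass.realize_formula (toLG e) φ

theorem sameType_iso {G H : Type} [Group G] [Group H] (e : G ≃* H) {k : ℕ} {u v : Fin k → G}
    (h : SameType u v) : SameType (fun i => e (u i)) (fun i => e (v i)) := by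
  intro φ
  rw [realize_iso, realize_iso]
  exact h φ

theorem homogeneous_iso {G H : Type} [Group G] [Group H] (e : G ≃* H) (h : Homogeneous G) :
    Homogeneous H := by
  intro k u v huv
  obtain ⟨σ, hσ⟩ := h k (fun i => e.symm (u i)) (fun i => e.symm (v i)) (sameType_iso e.symm huv)
  refine ⟨(e.symm.trans σ).trans e, fun i => ?_⟩
  show e (σ (e.symm (u i))) = v i
  rw [hσ i, MulEquiv.apply_symm_apply]

/-- The semidirect product `T ⋊ F`. -/
@[ext] structure Aff (T F : Type) where
  tr : T
  lin : F

namespace Aff

variable {T F : Type} [AddCommGroup T] [Group F] [DistribMulAction F T]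

instance : Mul (Aff T F) := ⟨fun a b => ⟨a.tr + a.lin • b.tr, a.lin * b.lin⟩⟩
instance : One (Aff T F) := ⟨⟨0, 1⟩⟩
instance : Inv (Aff T F) := ⟨fun a => ⟨-(a.lin⁻¹ • a.tr), a.lin⁻¹⟩⟩

@[simp] theorem mul_tr (a b : Aff T F) : (a * b).tr = a.tr + a.lin • b.tr := rfl
@[simp] theorem mul_lin (a b : Aff T F) : (a * b).lin = a.lin * b.lin := rfl
@[simp] theorem one_tr : (1 : Aff T F).tr = 0 := rfl
@[simp] theorem one_lin : (1 : Aff T F).lin = 1 := rfl
@[simp] theorem inv_tr (a : Aff T F) : (a⁻¹).tr = -(a.lin⁻¹ • a.tr) := rfl
@[simp] theorem inv_lin (a : Aff T F) : (a⁻¹).lin = a.lin⁻¹ := rfl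

instance : Group (Aff T F) where
  mul_assoc a b c := by
    ext
    · simp [smul_add, mul_smul, add_assoc]
    · simp [mul_assoc]
  one_mul a := by ext <;> simp
  mul_one a := by ext <;> simp
  inv_mul_cancel a := by ext <;> simp

end Aff

section los

open Filter

variable {T F : Type} [AddCommGroup T] [Group F] [Finite F] [DistribMulAction F T]
  (U : Ultrafilter ℕ)

/-- The map from the affine group of the ultrapower to the ultrapower of the affine group. -/
def eAff : Aff (Germ (U : Filter ℕ) T) F → (U : Filter ℕ).Product (fun _ => Aff T F) :=
  fun a => Quotient.map' (s₁ := germSetoid (U : Filter ℕ) T)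
    (s₂ := productSetoid (U : Filter ℕ) (fun _ => Aff T F))
    (fun x n => (⟨x n, a.lin⟩ : Aff T F))
    (by
      intro x y h
      filter_upwards [h] with n hn
      rw [hn]) a.tr

theorem eAff_coe (x : ℕ → T) (f : F) :
    eAff U (⟨(x : Germ (U : Filter ℕ) T), f⟩ : Aff (Germ (U : Filter ℕ) T) F) =
      ((fun n => (⟨x n, f⟩ : Aff T F)) : (U : Filter ℕ).Product (fun _ => Aff T F)) := rfl

theorem eAff_bij : Function.Bijective (eAff U (T := T) (F := F)) := by
  constructor
  · rintro ⟨a, f⟩ ⟨b, g⟩ h
    induction a using Germ.inductionOn with
    | h x =>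
      induction b using Germ.inductionOn with
      | h y =>
        rw [eAff_coe, eAff_coe] at h
        have h1 : ∀ᶠ n in (U : Filter ℕ), (⟨x n, f⟩ : Aff T F) = ⟨y n, g⟩ := Quotient.exact' h
        have h2 : f = g := by
          obtain ⟨n, hn⟩ := h1.exists
          exact congrArg Aff.lin hn
        subst h2
        congr 1
        apply Germ.coe_eq.2
        filter_upwards [h1] with n hn
        exact congrArg Aff.tr hn
  · intro b
    induction b using Quotient.inductionOn' with
    | h b =>
      have h1 : ∃ f : F, ∀ᶠ n in (U : Filter ℕ), (b n).lin = f := by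
        by_contra hcon
        push Not at hcon
        have h3 : ∀ᶠ n in (U : Filter ℕ), ∀ f : F, (b n).lin ≠ f := eventually_all.2 hcon
        obtain ⟨n, hn⟩ := h3.exists
        exact hn _ rfl
      obtain ⟨f, hf⟩ := h1
      refine ⟨⟨((fun n => (b n).tr : ℕ → T) : Germ (U : Filter ℕ) T), f⟩, ?_⟩
      rw [eAff_coe]
      apply Quotient.sound'
      show ∀ᶠ n in (U : Filter ℕ), _
      filter_upwards [hf] with n hn
      ext
      · rfl
      · exact hn.symm

/-- The isomorphism of structures. -/
noncomputable def eqAff : Aff (Germ (U : Filter ℕ) T) F ≃[LG]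
    (U : Filter ℕ).Product (fun _ => Aff T F) where
  toEquiv := Equiv.ofBijective _ (eAff_bij U)
  map_fun' := by
    intro n f x
    cases f with
    | mul =>
      show eAff U (x 0 * x 1) = _
      have key : ∀ a b : Aff (Germ (U : Filter ℕ) T) F, eAff U (a * b) =
          (FirstOrder.Language.Structure.funMap (L := LG) (n := 2) (GFun.mul : LG.Functions 2)
            ![eAff U a, eAff U b] : (U : Filter ℕ).Product (fun _ => Aff T F)) := by
        rintro ⟨a, f⟩ ⟨b, g⟩
        induction a using Germ.inductionOn with
        | h a =>
          induction b using Germ.inductionOn with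
          | h b =>
            rw [eAff_coe, eAff_coe]
            have h1 := FirstOrder.Language.Ultraproduct.funMap_cast (u := U)
              (M := fun _ => Aff T F) (L := LG) (GFun.mul : LG.Functions 2)
              ![fun n => (⟨a n, f⟩ : Aff T F), fun n => (⟨b n, g⟩ : Aff T F)]
            refine Eq.trans ?_ (Eq.trans h1.symm ?_)
            · rfl
            · congr 1
              funext i
              fin_cases i <;> rfl
      rw [key]
      congr 1
      funext i
      fin_cases i <;> rfl
    | inv =>
      show eAff U (x 0)⁻¹ = _
      have key : ∀ a : Aff (Germ (U : Filter ℕ) T) F, eAff U a⁻¹ =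
          (FirstOrder.Language.Structure.funMap (L := LG) (n := 1) (GFun.inv : LG.Functions 1)
            ![eAff U a] : (U : Filter ℕ).Product (fun _ => Aff T F)) := by
        rintro ⟨a, f⟩
        induction a using Germ.inductionOn with
        | h a =>
          rw [eAff_coe]
          have h1 := FirstOrder.Language.Ultraproduct.funMap_cast (u := U)
            (M := fun _ => Aff T F) (L := LG) (GFun.inv : LG.Functions 1)
            ![fun n => (⟨a n, f⟩ : Aff T F)]
          refine Eq.trans ?_ (Eq.trans h1.symm ?_)
          · rfl
          · congr 1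
            funext i
            fin_cases i
            rfl
      rw [key]
      congr 1
      funext i
      fin_cases i
      rfl
    | one =>
      show eAff U (1 : Aff (Germ (U : Filter ℕ) T) F) = _
      have h1 := FirstOrder.Language.Ultraproduct.funMap_cast (u := U)
        (M := fun _ => Aff T F) (L := LG) (GFun.one : LG.Functions 0) ![]
      refine Eq.trans ?_ (Eq.trans h1.symm ?_)
      · rfl
      · congr 1
        funext i
        exact i.elim0
  map_rel' := by
    intro n r
    exact r.elim

/-- A formula holds in the ultrapower for constant tuples iff it holds. -/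
theorem los_aff {k : ℕ} (φ : LG.Formula (Fin k)) (u : Fin k → Aff T F) :
    φ.Realize (fun i => (⟨((u i).tr : Germ (U : Filter ℕ) T), (u i).lin⟩ :
      Aff (Germ (U : Filter ℕ) T) F)) ↔ φ.Realize u := by
  rw [← FirstOrder.Language.StrongHomClass.realize_formula (eqAff U (T := T) (F := F)) φ]
  have h1 := FirstOrder.Language.Ultraproduct.realize_formula_cast (u := U)
    (M := fun _ => Aff T F) φ (fun i _ => u i)
  rw [Filter.eventually_const] at h1
  exact h1

end los

end Pool.Agent.Q317.HC
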