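import Pool.Agent.Q317.HC.Basic

/-!
# Crystallographic groups

Groups of isometries of the Euclidean space of dimension `n`.
-/

set_option autoImplicit false
set_option linter.unusedSectionVars false

namespace Pool.Agent.Q317.HC

/-- The Euclidean space of dimension `n`. -/
abbrev Eu (n : ℕ) : Type := EuclideanSpace ℝ (Fin n)

/-- The group is discrete: for every compact set `K` only finitely many elements of the group map
some point of `K` to a point of `K`. -/
def IsDiscrete {n : ℕ} (Γ : Subgroup (Equiv.Perm (Eu n))) : Prop :=
  ∀ K : Set (Eu n), IsCompact K → {g : Equiv.Perm (Eu n) | g ∈ Γ ∧ ∃ x ∈ K, g x ∈ K}.Finite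

/-- The group is cocompact: some compact set meets every orbit. -/
def IsCocompact {n : ℕ} (Γ : Subgroup (Equiv.Perm (Eu n))) : Prop :=
  ∃ K : Set (Eu n), IsCompact K ∧ ∀ x, ∃ g ∈ Γ, g x ∈ K

/-- A crystallographic group of dimension `n`: a discrete cocompact group of isometries of the
Euclidean space of dimension `n`. -/
def IsCrystallographic {n : ℕ} (Γ : Subgroup (Equiv.Perm (Eu n))) : Prop :=
  (∀ g ∈ Γ, Isometry g) ∧ IsDiscrete Γ ∧ IsCocompact Γ

/-- The permutation is a translation `x ↦ x + v`. -/
def IsTranslation {n : ℕ} (g : Equiv.Perm (Eu n)) : Prop := ∃ v, ∀ x, g x = x + v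

/-- The group is split if it is the semidirect product of its translation subgroup and of some
subgroup `K`: every element `g` of the group is in exactly one way the product of a translation
and of an element `k` of `K`. -/
def IsSplit {n : ℕ} (Γ : Subgroup (Equiv.Perm (Eu n))) : Prop :=
  ∃ K : Subgroup (Equiv.Perm (Eu n)), K ≤ Γ ∧ ∀ g ∈ Γ, ∃! k, k ∈ K ∧ IsTranslation (g * k⁻¹)

/-- The rational vector space spanned by the vectors of the translations in the group. -/
noncomputable def rationalTranslations {n : ℕ} (Γ : Subgroup (Equiv.Perm (Eu n))) :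
    Submodule ℚ (Eu n) :=
  Submodule.span ℚ {v | ∃ g ∈ Γ, ∀ x, g x = x + v}

/-- The rational subspace is invariant under the linear parts `w ↦ g w - g 0` of the elements `g`
of the group. -/
def IsInvariant {n : ℕ} (Γ : Subgroup (Equiv.Perm (Eu n))) (W : Submodule ℚ (Eu n)) : Prop :=
  ∀ g ∈ Γ, ∀ w ∈ W, g w - g 0 ∈ W

/-- The group is irreducible if the rational vector space spanned by its translation lattice has no
proper nonzero rational subspace invariant under the linear parts of the elements of the group. -/
def IsIrreducible {n : ℕ} (Γ : Subgroup (Equiv.Perm (Eu n))) : Prop :=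
  ∀ W : Submodule ℚ (Eu n), W ≤ rationalTranslations Γ → IsInvariant Γ W →
    W = ⊥ ∨ W = rationalTranslations Γ

end Pool.Agent.Q317.HC
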