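import Pool.Agent.Q317.HC.NoAut

/-!
# The rational representation of the point group is irreducible
-/

set_option autoImplicit false
set_option linter.unusedSectionVars false
set_option linter.unusedSimpArgs false

open FirstOrder Filter Polynomial

namespace Pool.Agent.Q317.HC

/-- The polynomial `X^8 - X^6 + X^4 - X^2 + 1`. -/
noncomputable def P20 : ℚ[X] := X ^ 8 - X ^ 6 + X ^ 4 - X ^ 2 + 1

theorem P20_eq : cyclotomic 20 ℚ = P20 := by
  have h5 : cyclotomic 5 ℚ = 1 + X + X ^ 2 + X ^ 3 + X ^ 4 := by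
    have : Fact (Nat.Prime 5) := ⟨by norm_num⟩
    rw [cyclotomic_prime]
    simp [Finset.sum_range_succ]
  have h10 : cyclotomic 10 ℚ = 1 - X + X ^ 2 - X ^ 3 + X ^ 4 := by
    have h := cyclotomic_expand_eq_cyclotomic_mul Nat.prime_two (by norm_num : ¬ 2 ∣ 5) ℚ
    have hne : cyclotomic 5 ℚ ≠ 0 := cyclotomic_ne_zero 5 ℚ
    apply mul_right_cancel₀ hne
    rw [show (5 * 2 : ℕ) = 10 from rfl] at h
    rw [← h, h5]
    simp only [map_add, map_one, map_pow, expand_X]
    ring
  have h20 := cyclotomic_expand_eq_cyclotomic Nat.prime_two (by norm_num : 2 ∣ 10) ℚ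
  rw [show (10 * 2 : ℕ) = 20 from rfl] at h20
  rw [← h20, h10]
  simp only [map_add, map_sub, map_one, map_pow, expand_X]
  unfold P20
  ring

theorem P20_irr : Irreducible P20 := by
  rw [← P20_eq]
  exact cyclotomic.irreducible_rat (by norm_num)

/-- The operator `ξ = I S` as a rational linear map. -/
noncomputable def xi : E →ₗ[ℚ] E :=
  AddMonoidHom.toRatLinearMap (((I * S).toLinearEquiv.toLinearMap : E →ₗ[ℝ] E) : E →+ E)

theorem xi_apply (x : E) : xi x = (I * S) x := rfl

theorem xi_pow (n : ℕ) (x : E) : (xi ^ n) x = ((I * S) ^ n) x := by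
  induction n generalizing x with
  | zero => rfl
  | succ n ih =>
    rw [pow_succ, pow_succ, Module.End.mul_apply, ih, xi_apply]
    rfl

theorem S_I_comm : Commute I S := S_mul_I.symm

theorem IS_pow5 : (I * S) ^ 5 = I := by
  rw [S_I_comm.mul_pow, S_pow, mul_one, pow_succ, I_pow, one_mul]

theorem IS_pow16 : (I * S) ^ 16 = S := by
  rw [S_I_comm.mul_pow]
  have h1 : I ^ 16 = (I ^ 4) ^ 4 := by rw [← pow_mul]
  have h2 : S ^ 16 = (S ^ 5) ^ 3 * S := by rw [← pow_mul, ← pow_succ]
  rw [h1, h2, I_pow, S_pow, one_pow, one_pow, one_mul, one_mul]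

theorem xi2 (x : E) (b : ZMod 5) : (((I * S) ^ 2) x).1 b = -x.1 (b - 1 - 1) := by
  have hI := Complex.I_mul_I
  show Complex.I * (Complex.I * x.1 (b - 1 - 1)) = _
  linear_combination x.1 (b - 1 - 1) * hI

theorem xi_P20 : aeval xi P20 = 0 := by
  apply LinearMap.ext
  intro x
  unfold P20
  simp only [map_add, map_sub, map_one, map_pow, aeval_X, LinearMap.add_apply,
    LinearMap.sub_apply, Module.End.one_apply, LinearMap.zero_apply, xi_pow]
  apply E_ext
  have h4 : ∀ (y : E) (b : ZMod 5), (((I * S) ^ 4) y).1 b = y.1 (b + 1) := by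
    intro y b
    rw [show (I * S) ^ 4 = (I * S) ^ 2 * (I * S) ^ 2 from by rw [← pow_add], L_mul, xi2, xi2,
      neg_neg]
    have h1 : b - 1 - 1 - 1 - 1 = b + 1 := by revert b; decide
    rw [h1]
  have h6 : ∀ (y : E) (b : ZMod 5), (((I * S) ^ 6) y).1 b = - y.1 (b - 1) := by
    intro y b
    have h1 : b + 1 - 1 - 1 = b - 1 := by ring
    rw [show (I * S) ^ 6 = (I * S) ^ 4 * (I * S) ^ 2 from by rw [← pow_add], L_mul, h4, xi2, h1]
  have h8 : ∀ (y : E) (b : ZMod 5), (((I * S) ^ 8) y).1 b = y.1 (b + 1 + 1) := by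
    intro y b
    rw [show (I * S) ^ 8 = (I * S) ^ 4 * (I * S) ^ 4 from by rw [← pow_add], L_mul, h4, h4]
  intro b
  show (((I * S) ^ 8) x).1 b - (((I * S) ^ 6) x).1 b + (((I * S) ^ 4) x).1 b -
    (((I * S) ^ 2) x).1 b + x.1 b = 0
  rw [h8, h6, h4, xi2]
  have hs := E_sum x
  revert b
  apply forall5
  · simp only [z01, z11, z21, z31, z41, y01, y11, y21, y31, y41]
    linear_combination hs
  · simp only [z01, z11, z21, z31, z41, y01, y11, y21, y31, y41]
    linear_combination hs
  · simp only [z01, z11, z21, z31, z41, y01, y11, y21, y31, y41]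
    linear_combination hs
  · simp only [z01, z11, z21, z31, z41, y01, y11, y21, y31, y41]
    linear_combination hs
  · simp only [z01, z11, z21, z31, z41, y01, y11, y21, y31, y41]
    linear_combination hs

/-- The vector `(1, -1, 0, 0, 0)`. -/
noncomputable def tau : E := mk (vec 1 (-1) 0 0 0) (by rw [vec_sum]; ring)

theorem tau_T : tau ∈ T := by
  apply forall5
  · exact ⟨1, 0, by simp [tau]⟩
  · exact ⟨-1, 0, by simp [tau]⟩
  · exact ⟨0, 0, by simp [tau]⟩
  · exact ⟨0, 0, by simp [tau]⟩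
  · exact ⟨0, 0, by simp [tau]⟩

/-- Every lattice vector is a polynomial in `ξ` applied to `τ`. -/
theorem exists_poly {t : E} (ht : t ∈ T) : ∃ f : ℚ[X], aeval xi f tau = t := by
  obtain ⟨m0, n0, h0⟩ := ht 0
  obtain ⟨m1, n1, h1⟩ := ht 1
  obtain ⟨m2, n2, h2⟩ := ht 2
  obtain ⟨m3, n3, h3⟩ := ht 3
  have hs := E_sum t
  let g : ℤ → ℤ → ℚ[X] := fun m n => C (m : ℚ) + C (n : ℚ) * X ^ 5
  refine ⟨g m0 n0 + g (m0 + m1) (n0 + n1) * X ^ 16 +
    g (m0 + m1 + m2) (n0 + n1 + n2) * (X ^ 16 * X ^ 16) +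
    g (m0 + m1 + m2 + m3) (n0 + n1 + n2 + n3) * (X ^ 16 * (X ^ 16 * X ^ 16)), ?_⟩
  have hg : ∀ (m n : ℤ) (x : E) (b : ZMod 5), ((aeval xi (g m n)) x).1 b =
      (m + n * Complex.I) * x.1 b := by
    intro m n x b
    simp only [g, map_add, map_mul, map_pow, aeval_X, aeval_C, LinearMap.add_apply,
      Module.End.mul_apply, xi_pow, IS_pow5]
    show ((m : ℚ) • x).1 b + ((n : ℚ) • (I x)).1 b = _
    show (m : ℚ) • x.1 b + (n : ℚ) • (Complex.I * x.1 b) = _
    rw [Rat.smul_def, Rat.smul_def]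
    push_cast
    ring
  have hS : ∀ x : E, (aeval xi (X ^ 16 : ℚ[X])) x = S x := by
    intro x
    rw [map_pow, aeval_X, xi_pow, IS_pow16]
  simp only [map_add, map_mul, LinearMap.add_apply, Module.End.mul_apply, hS]
  apply E_ext
  intro b
  show ((aeval xi (g m0 n0)) tau).1 b + ((aeval xi (g (m0 + m1) (n0 + n1))) (S tau)).1 b +
    ((aeval xi (g (m0 + m1 + m2) (n0 + n1 + n2))) (S (S tau))).1 b +
    ((aeval xi (g (m0 + m1 + m2 + m3) (n0 + n1 + n2 + n3))) (S (S (S tau)))).1 b = _
  rw [hg, hg, hg, hg]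
  simp only [S_apply]
  unfold tau
  simp only [mk_apply]
  revert b
  apply forall5
  · simp only [z01, z11, z21, z31, z41, vec_0, vec_1, vec_2, vec_3, vec_4]
    push_cast
    linear_combination -h0
  · simp only [z01, z11, z21, z31, z41, vec_0, vec_1, vec_2, vec_3, vec_4]
    push_cast
    linear_combination -h1
  · simp only [z01, z11, z21, z31, z41, vec_0, vec_1, vec_2, vec_3, vec_4]
    push_cast
    linear_combination -h2
  · simp only [z01, z11, z21, z31, z41, vec_0, vec_1, vec_2, vec_3, vec_4]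
    push_cast
    linear_combination -h3
  · simp only [z01, z11, z21, z31, z41, vec_0, vec_1, vec_2, vec_3, vec_4]
    push_cast
    linear_combination h0 + h1 + h2 + h3 - hs

/-- A rational subspace invariant under `ξ` with a nonzero lattice vector has all of them. -/
theorem irreducible_aux (W : Submodule ℚ E) (hW : ∀ x ∈ W, xi x ∈ W) {t : E} (ht : t ∈ T)
    (htW : t ∈ W) (ht0 : t ≠ 0) : ∀ s ∈ T, s ∈ W := by
  have hpoly : ∀ (f : ℚ[X]) (x : E), x ∈ W → aeval xi f x ∈ W := by
    intro f x hx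
    induction f using Polynomial.induction_on' with
    | add p q hp hq =>
      rw [map_add, LinearMap.add_apply]
      exact W.add_mem hp hq
    | monomial n a =>
      rw [← C_mul_X_pow_eq_monomial, map_mul, map_pow, aeval_X, aeval_C, Module.End.mul_apply]
      show a • ((xi ^ n) x) ∈ W
      apply W.smul_mem
      induction n with
      | zero => exact hx
      | succ n ih =>
        rw [pow_succ', Module.End.mul_apply]
        exact hW _ ih
  obtain ⟨f, hf⟩ := exists_poly ht
  have h1 : ¬ P20 ∣ f := by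
    rintro ⟨g, rfl⟩
    apply ht0
    rw [← hf, map_mul, xi_P20, zero_mul]
    rfl
  obtain ⟨u, v, huv⟩ := (P20_irr.coprime_iff_not_dvd).2 h1
  have h2 : tau ∈ W := by
    have e1 : aeval xi (u * P20 + v * f) tau = tau := by
      rw [huv, map_one]; rfl
    rw [map_add, map_mul, map_mul, xi_P20, mul_zero, zero_add, Module.End.mul_apply, hf] at e1
    rw [← e1]
    exact hpoly v t htW
  intro s hs
  obtain ⟨g, hg⟩ := exists_poly hs
  rw [← hg]
  exact hpoly g tau h2

end Pool.Agent.Q317.HC
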