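import Pool.Agent.Q317.HC.Cyclo
import Pool.Agent.Q317.HC.CrystDefs

/-!
# The group as a group of isometries of the Euclidean space of dimension `8`
-/

set_option autoImplicit false
set_option linter.unusedSectionVars false
set_option linter.unusedSimpArgs false

open FirstOrder Filter Pointwise

namespace Pool.Agent.Q317.HC

/-- The sum of the coordinates. -/
noncomputable def sumMap : V →ₗ[ℝ] ℂ where
  toFun x := ∑ b, x b
  map_add' x y := by
    simp only [PiLp.add_apply]
    rw [Finset.sum_add_distrib]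
  map_smul' c x := by
    simp only [PiLp.smul_apply]
    rw [← Finset.smul_sum]
    rfl

theorem finrank_V : Module.finrank ℝ V = 10 := by
  have h1 : Module.finrank ℝ V = Module.finrank ℝ (ZMod 5 → ℂ) :=
    LinearEquiv.finrank_eq (WithLp.linearEquiv 2 ℝ (ZMod 5 → ℂ))
  rw [h1, Module.finrank_pi_fintype, Finset.sum_const, Complex.finrank_real_complex,
    Finset.card_univ, ZMod.card]
  rfl

theorem finrank_E : Module.finrank ℝ E = 8 := by
  have h1 := LinearMap.finrank_range_add_finrank_ker sumMap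
  have h2 : LinearMap.ker sumMap = E := by
    ext x
    exact Iff.rfl
  have h3 : LinearMap.range sumMap = ⊤ := by
    rw [LinearMap.range_eq_top]
    intro z
    refine ⟨WithLp.toLp 2 (vec z 0 0 0 0), ?_⟩
    show ∑ b, vec z 0 0 0 0 b = z
    rw [vec_sum]
    ring
  rw [h2, h3, finrank_top, Complex.finrank_real_complex, finrank_V] at h1
  omega

/-- An isometry between `E` and the Euclidean space of dimension `8`. -/
noncomputable def phi : E ≃ₗᵢ[ℝ] Eu 8 :=
  ((stdOrthonormalBasis ℝ E).reindex (finCongr finrank_E)).repr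

/-- The isometry `x ↦ f x + t` of the Euclidean space. -/
noncomputable def Psi00 (a : Aff T F) : Eu 8 ≃ᵢ Eu 8 :=
  (phi.symm.toIsometryEquiv.trans ((a.lin : L).toIsometryEquiv.trans
    (IsometryEquiv.addRight (a.tr : E)))).trans phi.toIsometryEquiv

/-- The isometry `x ↦ f x + t` as a permutation. -/
noncomputable def Psi0 (a : Aff T F) : Equiv.Perm (Eu 8) := (Psi00 a).toEquiv

theorem Psi0_apply (a : Aff T F) (x : Eu 8) :
    Psi0 a x = phi ((a.lin : L) (phi.symm x) + (a.tr : E)) := rfl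

/-- The affine group acts by isometries. -/
noncomputable def Psi : Aff T F →* Equiv.Perm (Eu 8) where
  toFun := Psi0
  map_one' := by
    apply Equiv.ext
    intro x
    rw [Psi0_apply]
    show phi (phi.symm x + 0) = x
    rw [add_zero, LinearIsometryEquiv.apply_symm_apply]
  map_mul' a b := by
    apply Equiv.ext
    intro x
    show Psi0 (a * b) x = Psi0 a (Psi0 b x)
    rw [Psi0_apply, Psi0_apply, Psi0_apply, LinearIsometryEquiv.symm_apply_apply]
    congr 1
    show (a.lin : L) ((b.lin : L) (phi.symm x)) + ((a.tr : E) + (a.lin : L) (b.tr : E)) = _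
    rw [map_add]
    abel

theorem Psi_apply (a : Aff T F) (x : Eu 8) :
    Psi a x = phi ((a.lin : L) (phi.symm x) + (a.tr : E)) := rfl

theorem Psi_zero (a : Aff T F) : Psi a 0 = phi (a.tr : E) := by
  rw [Psi_apply, map_zero, map_zero, zero_add]

theorem Psi_phi (a : Aff T F) (x : E) : Psi a (phi x) = phi ((a.lin : L) x + (a.tr : E)) := by
  rw [Psi_apply, LinearIsometryEquiv.symm_apply_apply]

theorem Psi_inj : Function.Injective Psi := by
  intro a b hab
  have h0 : (a.tr : E) = b.tr := by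
    apply phi.injective
    rw [← Psi_zero, ← Psi_zero, hab]
  have h1 : (a.lin : L) = b.lin := by
    apply LinearIsometryEquiv.ext
    intro x
    have h2 : Psi a (phi x) = Psi b (phi x) := by rw [hab]
    rw [Psi_phi, Psi_phi, h0] at h2
    exact add_right_cancel (phi.injective h2)
  ext1
  · exact Subtype.ext h0
  · exact Subtype.ext h1

/-- The crystallographic group. -/
noncomputable def Gam : Subgroup (Equiv.Perm (Eu 8)) := Psi.range

theorem mem_Gam (a : Aff T F) : Psi a ∈ Gam := ⟨a, rfl⟩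

theorem translation_iff (a : Aff T F) (v : Eu 8) (h : ∀ x, Psi a x = x + v) :
    a.lin = 1 ∧ v = phi (a.tr : E) := by
  have h0 : v = phi (a.tr : E) := by
    rw [← Psi_zero, h 0, zero_add]
  refine ⟨?_, h0⟩
  apply Subtype.ext
  apply LinearIsometryEquiv.ext
  intro x
  have h1 := h (phi x)
  rw [Psi_phi, h0, ← map_add] at h1
  exact add_right_cancel (phi.injective h1)

theorem Psi_trs (t : T) (x : Eu 8) : Psi (trs t) x = x + phi (t : E) := by
  rw [Psi_apply]
  show phi (phi.symm x + (t : E)) = _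
  rw [map_add, LinearIsometryEquiv.apply_symm_apply]

theorem coord_le (x : E) (b : ZMod 5) : ‖x.1 b‖ ≤ ‖x‖ := PiLp.norm_apply_le x.1 b

theorem finite_T (R : ℝ) : {t : T | ‖(t : E)‖ ≤ R}.Finite := by
  let f : T → (ZMod 5 → ℤ × ℤ) := fun t b => (round (t.1.1 b).re, round (t.1.1 b).im)
  let N : ℤ := ⌈R⌉
  refine Set.Finite.of_injOn (f := f)
    (t := Set.Icc (fun _ => (-N, -N)) (fun _ => (N, N))) ?_ ?_ (Set.finite_Icc _ _)
  · intro t ht
    have ht' : ‖(t : E)‖ ≤ R := ht
    have key : ∀ b, |(round (t.1.1 b).re : ℤ)| ≤ N ∧ |(round (t.1.1 b).im : ℤ)| ≤ N := by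
      intro b
      obtain ⟨m, n, h⟩ := t.2 b
      have h1 := (coord_le t.1 b).trans ht'
      have h2 := Complex.abs_re_le_norm (t.1.1 b)
      have h3 := Complex.abs_im_le_norm (t.1.1 b)
      have e1 : (t.1.1 b).re = m := by rw [h]; simp
      have e2 : (t.1.1 b).im = n := by rw [h]; simp
      rw [e1] at h2
      rw [e2] at h3
      rw [e1, e2, round_intCast, round_intCast]
      constructor
      · have h4 : ((|m| : ℤ) : ℝ) ≤ R := by
          push_cast
          linarith
        exact_mod_cast h4.trans (Int.le_ceil R)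
      · have h4 : ((|n| : ℤ) : ℝ) ≤ R := by
          push_cast
          linarith
        exact_mod_cast h4.trans (Int.le_ceil R)
    constructor
    · intro b
      exact ⟨(abs_le.1 (key b).1).1, (abs_le.1 (key b).2).1⟩
    · intro b
      exact ⟨(abs_le.1 (key b).1).2, (abs_le.1 (key b).2).2⟩
  · intro s _ t _ hst
    apply Subtype.ext
    apply E_ext
    intro b
    have h1 := congrFun hst b
    obtain ⟨m, n, h⟩ := s.2 b
    obtain ⟨m', n', h'⟩ := t.2 b
    have h2 : (round (s.1.1 b).re, round (s.1.1 b).im) =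
      (round (t.1.1 b).re, round (t.1.1 b).im) := h1
    have e1 : (s.1.1 b).re = m := by rw [h]; simp
    have e2 : (s.1.1 b).im = n := by rw [h]; simp
    have e3 : (t.1.1 b).re = m' := by rw [h']; simp
    have e4 : (t.1.1 b).im = n' := by rw [h']; simp
    rw [e1, e2, e3, e4, round_intCast, round_intCast, round_intCast, round_intCast,
      Prod.mk.injEq] at h2
    rw [h, h', h2.1, h2.2]

theorem Gam_cryst : IsCrystallographic Gam := by
  refine ⟨?_, ?_, ?_⟩
  · rintro g ⟨a, rfl⟩
    exact (Psi00 a).isometry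
  · intro K hK
    obtain ⟨R, hR⟩ := hK.isBounded.exists_norm_le
    have h1 : {g : Equiv.Perm (Eu 8) | g ∈ Gam ∧ ∃ x ∈ K, g x ∈ K} ⊆
        (fun p : T × F => Psi ⟨p.1, p.2⟩) ''
          ({t : T | ‖(t : E)‖ ≤ 2 * R} ×ˢ (Set.univ : Set F)) := by
      rintro g ⟨⟨a, rfl⟩, ⟨x, hx, hy⟩⟩
      refine ⟨(a.tr, a.lin), ⟨?_, Set.mem_univ _⟩, rfl⟩
      show ‖(a.tr : E)‖ ≤ 2 * R
      have h2 := hR _ hy
      have h3 := hR _ hx
      rw [Psi_apply, phi.norm_map] at h2
      have h4 : ‖(a.lin : L) (phi.symm x)‖ = ‖x‖ := by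
        rw [(a.lin : L).norm_map, phi.symm.norm_map]
      have h5 : (a.tr : E) = ((a.lin : L) (phi.symm x) + (a.tr : E)) - (a.lin : L) (phi.symm x) := by
        abel
      rw [h5]
      refine (norm_sub_le _ _).trans ?_
      rw [h4]
      linarith
    exact (((finite_T _).prod Set.finite_univ).image _).subset h1
  · refine ⟨Metric.closedBall 0 5, isCompact_closedBall 0 5, fun x => ?_⟩
    obtain ⟨t, ht, hd⟩ := cocompact (phi.symm x)
    refine ⟨Psi (trs (-⟨t, ht⟩)), mem_Gam _, ?_⟩
    rw [Metric.mem_closedBall, dist_zero_right, Psi_trs]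
    have h1 : x + phi ((-⟨t, ht⟩ : T) : E) = phi (phi.symm x - t) := by
      rw [map_sub, LinearIsometryEquiv.apply_symm_apply, sub_eq_add_neg]
      congr 1
      exact map_neg phi t
    rw [h1, phi.norm_map]
    exact hd

/-- The embedding of the point group. -/
noncomputable def embF : F →* Equiv.Perm (Eu 8) where
  toFun f := Psi ⟨0, f⟩
  map_one' := map_one Psi
  map_mul' f g := by
    rw [← map_mul]
    congr 1
    ext1
    · show (0 : T) = 0 + f • (0 : T)
      rw [smul_zero, add_zero]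
    · rfl

theorem Gam_split : IsSplit Gam := by
  refine ⟨embF.range, ?_, ?_⟩
  · rintro g ⟨f, rfl⟩
    exact mem_Gam _
  · rintro g ⟨a, rfl⟩
    have key : ∀ f : F, Psi a * (embF f)⁻¹ = Psi (a * (⟨0, f⟩ : Aff T F)⁻¹) := by
      intro f
      rw [map_mul, map_inv]
      rfl
    refine ⟨embF a.lin, ⟨⟨a.lin, rfl⟩, phi (a.tr : E), ?_⟩, ?_⟩
    · intro x
      have h1 : a * (⟨0, a.lin⟩ : Aff T F)⁻¹ = trs a.tr := by
        ext1
        · show a.tr + a.lin • (-(a.lin⁻¹ • (0 : T))) = a.tr
          rw [smul_zero, neg_zero, smul_zero, add_zero]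
        · exact mul_inv_cancel _
      rw [key, h1, Psi_trs]
    · rintro k ⟨⟨f, rfl⟩, v, hv⟩
      rw [key] at hv
      have h1 := (translation_iff _ v hv).1
      have h2 : a.lin * f⁻¹ = 1 := h1
      rw [mul_inv_eq_one.1 h2]

/-- `phi` as a rational linear map. -/
noncomputable def phiQ : E →ₗ[ℚ] Eu 8 :=
  AddMonoidHom.toRatLinearMap ((phi.toLinearEquiv.toLinearMap : E →ₗ[ℝ] Eu 8) : E →+ Eu 8)

theorem phiQ_apply (x : E) : phiQ x = phi x := rfl

theorem rt_mem {w : Eu 8} (hw : w ∈ rationalTranslations Gam) :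
    ∃ m : ℤ, m ≠ 0 ∧ ∃ t ∈ T, m • w = phi t := by
  unfold rationalTranslations at hw
  induction hw using Submodule.span_induction with
  | mem v hv =>
    obtain ⟨g, ⟨a, rfl⟩, hg⟩ := hv
    have h1 := translation_iff a v hg
    exact ⟨1, one_ne_zero, a.tr, a.tr.2, by rw [one_smul, h1.2]⟩
  | zero => exact ⟨1, one_ne_zero, 0, T.zero_mem, by rw [smul_zero, map_zero]⟩
  | add x y _ _ hx hy =>
    obtain ⟨m, hm, s, hs, hms⟩ := hx
    obtain ⟨n, hn, t, ht, hnt⟩ := hy
    refine ⟨m * n, mul_ne_zero hm hn, n • s + m • t,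
      T.add_mem (T.zsmul_mem hs n) (T.zsmul_mem ht m), ?_⟩
    rw [smul_add, map_add, map_zsmul, map_zsmul, ← hms, ← hnt, smul_smul, smul_smul, mul_comm m n]
  | smul q x _ hx =>
    obtain ⟨m, hm, s, hs, hms⟩ := hx
    refine ⟨q.den * m, mul_ne_zero (by exact_mod_cast q.den_ne_zero) hm, q.num • s,
      T.zsmul_mem hs _, ?_⟩
    rw [map_zsmul, ← hms, smul_smul, ← Int.cast_smul_eq_zsmul ℚ, ← Int.cast_smul_eq_zsmul ℚ,
      smul_smul]
    congr 1
    push_cast
    have h1 : (q.den : ℚ) * q = q.num := Rat.den_mul_eq_num q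
    linear_combination (m : ℚ) * h1

theorem Gam_irred : IsIrreducible Gam := by
  intro W hW hinv
  by_cases h0 : W = ⊥
  · exact Or.inl h0
  right
  obtain ⟨w, hw, hw0⟩ := Submodule.exists_mem_ne_zero_of_ne_bot h0
  obtain ⟨m, hm, t, ht, hmt⟩ := rt_mem (hW hw)
  let W' : Submodule ℚ E := W.comap phiQ
  have h1 : ∀ x ∈ W', xi x ∈ W' := by
    intro x hx
    have hx' : phi x ∈ W := hx
    have h2 := hinv (Psi ⟨0, Ii * Ss⟩) (mem_Gam _) _ hx'
    rw [Psi_zero, Psi_phi] at h2
    have h3 : phi ((I * S) x + 0) - phi 0 ∈ W := h2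
    rw [add_zero, map_zero, sub_zero] at h3
    exact h3
  have h2 : t ∈ W' := by
    show phi t ∈ W
    rw [← hmt]
    exact W.toAddSubgroup.zsmul_mem hw m
  have h3 : t ≠ 0 := by
    rintro rfl
    rw [map_zero] at hmt
    have h4 : ((m : ℝ) • w : Eu 8) = 0 := by rw [Int.cast_smul_eq_zsmul, hmt]
    rcases smul_eq_zero.1 h4 with h5 | h5
    · exact hm (by exact_mod_cast h5)
    · exact hw0 h5
  have h4 := irreducible_aux W' h1 ht h2 h3
  apply le_antisymm hW
  unfold rationalTranslations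
  rw [Submodule.span_le]
  rintro v ⟨g, ⟨a, rfl⟩, hg⟩
  have h5 := translation_iff a v hg
  rw [h5.2]
  exact h4 a.tr a.tr.2

theorem Aff_not_homogeneous : ¬ Homogeneous (Aff T F) := by
  intro h
  obtain ⟨σ, hσ⟩ := h 3 _ _ (sameType_ISH (![Ii, Ss, Hh] : Fin 3 → F))
  have h0 := hσ 0
  have h1 := hσ 1
  have h2 := hσ 2
  have e0 : al Ii = Ii := Subtype.ext conj_I
  have e1 : al Ss = Ss := Subtype.ext conj_S
  have e2 : al Hh = Ii * Hh := Subtype.ext conj_H
  simp only [Matrix.cons_val_zero, Matrix.cons_val_one, Matrix.cons_val] at h0 h1 h2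
  rw [e0] at h0
  rw [e1] at h1
  rw [e2] at h2
  exact no_aut σ h0 h1 h2

theorem Gam_not_homogeneous : ¬ Homogeneous Gam := fun h =>
  Aff_not_homogeneous (homogeneous_iso (MonoidHom.ofInjective Psi_inj).symm h)

end Pool.Agent.Q317.HC
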