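import Pool.Agent.Q317.HC.Basic

/-!
# Twisted automorphisms of ultrapowers

If a torsion-free abelian group `T` with an action of a finite group `F` has twisted endomorphisms
of norm prime to every given integer then the corresponding tuples of `T ⋊ F` have the same type.
-/

set_option autoImplicit false
set_option linter.unusedSectionVars false

open FirstOrder Filter

namespace Pool.Agent.Q317.HC

/-- An endomorphism `e` of `T` with `e (f t) = α (f) e (t)` and with an inverse up to `Q`. -/
structure Twist (T F : Type) [AddCommGroup T] [Group F] [DistribMulAction F T] (α : F ≃* F)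
    (Q : ℤ) where
  e : T →+ T
  e' : T →+ T
  eq : ∀ (f : F) (t : T), e (f • t) = α f • e t
  h1 : ∀ t, e' (e t) = Q • t
  h2 : ∀ t, e (e' t) = Q • t

section genus

variable {T F : Type} [AddCommGroup T] [Group F] [Finite F] [DistribMulAction F T]
  (U : Ultrafilter ℕ)

/-- The endomorphism of the ultrapower given by a sequence of endomorphisms. -/
def gmap (e : ℕ → (T →+ T)) : Germ (U : Filter ℕ) T →+ Germ (U : Filter ℕ) T where
  toFun := fun x => Germ.map₂ (fun (f : T →+ T) t => f t) (e : Germ (U : Filter ℕ) (T →+ T)) x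
  map_zero' := by
    show ((fun n => e n 0 : ℕ → T) : Germ (U : Filter ℕ) T) = 0
    simp only [map_zero]
    rfl
  map_add' := by
    intro x y
    induction x using Germ.inductionOn with
    | h x =>
      induction y using Germ.inductionOn with
      | h y =>
        show ((fun n => e n (x n + y n) : ℕ → T) : Germ (U : Filter ℕ) T) =
          ((fun n => e n (x n) + e n (y n) : ℕ → T) : Germ (U : Filter ℕ) T)
        simp only [map_add]

theorem gmap_coe (e : ℕ → (T →+ T)) (x : ℕ → T) :
    gmap U e (x : Germ (U : Filter ℕ) T) = ((fun n => e n (x n) : ℕ → T) : Germ (U : Filter ℕ) T) :=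
  rfl

/-- The divisible part. -/
def Dv (A : Type) [AddCommGroup A] : AddSubgroup A where
  carrier := {x | ∀ n : ℤ, n ≠ 0 → ∃ y, n • y = x}
  zero_mem' := fun n _ => ⟨0, smul_zero n⟩
  add_mem' := by
    intro a b ha hb n hn
    obtain ⟨x, hx⟩ := ha n hn
    obtain ⟨y, hy⟩ := hb n hn
    exact ⟨x + y, by rw [smul_add, hx, hy]⟩
  neg_mem' := by
    intro a ha n hn
    obtain ⟨x, hx⟩ := ha n hn
    exact ⟨-x, by rw [smul_neg, hx]⟩

theorem mem_Dv {A : Type} [AddCommGroup A] {x : A} :
    x ∈ Dv A ↔ ∀ n : ℤ, n ≠ 0 → ∃ y, n • y = x := Iff.rfl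

theorem map_Dv {A : Type} [AddCommGroup A] (g : A →+ A) {x : A} (hx : x ∈ Dv A) : g x ∈ Dv A := by
  intro n hn
  obtain ⟨y, hy⟩ := hx n hn
  exact ⟨g y, by rw [← map_zsmul, hy]⟩

/-- Torsion-free. -/
def TF (A : Type) [AddCommGroup A] : Prop := ∀ (n : ℤ) (t : A), n ≠ 0 → n • t = 0 → t = 0

theorem TF.cancel {A : Type} [AddCommGroup A] (h : TF A) {n : ℤ} (hn : n ≠ 0) {x y : A}
    (hxy : n • x = n • y) : x = y := by
  have h1 : n • (x - y) = 0 := by rw [smul_sub, hxy, sub_self]
  exact sub_eq_zero.1 (h n _ hn h1)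

theorem Dv_div {A : Type} [AddCommGroup A] (h : TF A) {x : A} (hx : x ∈ Dv A) {n : ℤ}
    (hn : n ≠ 0) : ∃ y ∈ Dv A, n • y = x := by
  obtain ⟨y, hy⟩ := hx n hn
  refine ⟨y, ?_, hy⟩
  intro m hm
  obtain ⟨z, hz⟩ := hx (n * m) (mul_ne_zero hn hm)
  refine ⟨z, ?_⟩
  apply h.cancel hn
  rw [← mul_smul, hz, hy]

/-- A retraction on the divisible part. -/
theorem exists_retraction {A : Type} [AddCommGroup A] (h : TF A) :
    ∃ p : A →+ A, (∀ x, p x ∈ Dv A) ∧ ∀ x ∈ Dv A, p x = x := by
  classical
  have hs : ∀ (n : ℤ) (x : Dv A), ∃ y : Dv A, n ≠ 0 → n • y = x := by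
    intro n x
    by_cases hn : n = 0
    · exact ⟨0, fun h' => absurd hn h'⟩
    · obtain ⟨y, hy, hyx⟩ := Dv_div h x.2 hn
      exact ⟨⟨y, hy⟩, fun _ => Subtype.ext hyx⟩
  choose dv hdv using hs
  let _ : DivisibleBy (Dv A) ℤ :=
    { div := fun x n => if n = 0 then 0 else dv n x
      div_zero := fun x => if_pos rfl
      div_cancel := by
        intro n x hn
        show n • (if n = 0 then 0 else dv n x) = x
        rw [if_neg hn]
        exact hdv n x hn }
  obtain ⟨g, hg⟩ := (Module.Baer.of_divisible (Dv A)).extension_property_addMonoidHom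
    (Dv A).subtype (Dv A).subtype_injective (AddMonoidHom.id (Dv A))
  refine ⟨(Dv A).subtype.comp g, fun x => (g x).2, fun x hx => ?_⟩
  have h1 := DFunLike.congr_fun hg (⟨x, hx⟩ : Dv A)
  exact congrArg Subtype.val h1

/-- An equivariant retraction on the divisible part. -/
theorem exists_equivariant_retraction {A : Type} [AddCommGroup A] [DistribMulAction F A]
    (h : TF A) :
    ∃ p : A →+ A, (∀ x, p x ∈ Dv A) ∧ (∀ x ∈ Dv A, p x = x) ∧
      ∀ (f : F) (x : A), p (f • x) = f • p x := by
  classical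
  have := Fintype.ofFinite F
  obtain ⟨p, hp1, hp2⟩ := exists_retraction h
  have hF : ∀ (f : F) (x : A), x ∈ Dv A → f • x ∈ Dv A := fun f x hx =>
    map_Dv (DistribSMul.toAddMonoidHom A f) hx
  set N : ℤ := (Fintype.card F : ℤ) with hN
  have hN0 : N ≠ 0 := by
    rw [hN]
    exact_mod_cast Fintype.card_ne_zero
  let q : A → A := fun x => ∑ f : F, f⁻¹ • p (f • x)
  have hq1 : ∀ x, q x ∈ Dv A := fun x =>
    AddSubgroup.sum_mem _ fun f _ => hF _ _ (hp1 _)
  have hq2 : ∀ x ∈ Dv A, q x = N • x := by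
    intro x hx
    show ∑ f : F, f⁻¹ • p (f • x) = N • x
    have h1 : ∀ f ∈ (Finset.univ : Finset F), f⁻¹ • p (f • x) = x := by
      intro f _
      rw [hp2 _ (hF f x hx), inv_smul_smul]
    rw [Finset.sum_congr rfl h1, Finset.sum_const, Finset.card_univ, hN, natCast_zsmul]
  have hq3 : ∀ (g : F) (x : A), q (g • x) = g • q x := by
    intro g x
    show ∑ f : F, f⁻¹ • p (f • g • x) = g • ∑ f : F, f⁻¹ • p (f • x)
    rw [Finset.smul_sum]
    refine Fintype.sum_equiv (Equiv.mulRight g) _ _ ?_
    intro f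
    rw [Equiv.coe_mulRight, mul_inv_rev, mul_smul, mul_smul, smul_inv_smul]
  have hq4 : ∀ x y, q (x + y) = q x + q y := by
    intro x y
    show ∑ f : F, f⁻¹ • p (f • (x + y)) = ∑ f : F, f⁻¹ • p (f • x) + ∑ f : F, f⁻¹ • p (f • y)
    rw [← Finset.sum_add_distrib]
    refine Finset.sum_congr rfl fun f _ => ?_
    rw [smul_add, map_add, smul_add]
  have hd : ∀ x, ∃ y ∈ Dv A, N • y = q x := fun x => Dv_div h (hq1 x) hN0
  choose r hr1 hr2 using hd
  refine ⟨AddMonoidHom.mk' r ?_, hr1, ?_, ?_⟩
  · intro x y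
    apply h.cancel hN0
    rw [smul_add, hr2, hr2, hr2, hq4]
  · intro x hx
    apply h.cancel hN0
    show N • r x = N • x
    rw [hr2, hq2 x hx]
  · intro f x
    apply h.cancel hN0
    show N • r (f • x) = N • f • r x
    rw [hr2, hq3, ← hr2 x]
    exact map_zsmul (DistribSMul.toAddMonoidHom A f) N (r x)

theorem tf_germ (h : TF T) : TF (Germ (U : Filter ℕ) T) := by
  intro n x hn hx
  induction x using Germ.inductionOn with
  | h x =>
    have h1 : ∀ᶠ k in (U : Filter ℕ), n • x k = 0 := Germ.coe_eq.1 hx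
    apply Germ.coe_eq.2
    filter_upwards [h1] with k hk
    exact h n _ hn hk

/-- The twisted automorphism of the ultrapower. -/
theorem exists_theta (hT : TF T) (α : F ≃* F) (hU : ∀ k : ℕ, ∀ᶠ n in (U : Filter ℕ), k ≤ n)
    (Q : ℕ → ℤ) (E : ∀ n, Twist T F α (Q n))
    (hQ : ∀ n, IsCoprime (Q n) (n.factorial : ℤ))
    (Q0 : ℤ) (E0 : Twist T F α Q0) (hQ0 : Q0 ≠ 0) :
    ∃ θ : Germ (U : Filter ℕ) T ≃+ Germ (U : Filter ℕ) T,
      ∀ (f : F) (x : Germ (U : Filter ℕ) T), θ (f • x) = α f • θ x := by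
  classical
  have hA := tf_germ U hT
  set A := Germ (U : Filter ℕ) T with hAdef
  obtain ⟨p, hp1, hp2, hp3⟩ := exists_equivariant_retraction (F := F) hA
  let ε : A →+ A := gmap U (fun n => (E n).e)
  let ε' : A →+ A := gmap U (fun n => (E n).e')
  let β : A →+ A := gmap U (fun _ => E0.e)
  let β' : A →+ A := gmap U (fun _ => E0.e')
  have hεF : ∀ (f : F) (x : A), ε (f • x) = α f • ε x := by
    intro f x
    induction x using Germ.inductionOn with
    | h x =>
      show ((fun n => (E n).e (f • x n) : ℕ → T) : Germ (U : Filter ℕ) T) =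
        ((fun n => α f • (E n).e (x n) : ℕ → T) : Germ (U : Filter ℕ) T)
      simp only [(E _).eq]
  have hβF : ∀ (f : F) (x : A), β (f • x) = α f • β x := by
    intro f x
    induction x using Germ.inductionOn with
    | h x =>
      show ((fun n => E0.e (f • x n) : ℕ → T) : Germ (U : Filter ℕ) T) =
        ((fun n => α f • E0.e (x n) : ℕ → T) : Germ (U : Filter ℕ) T)
      simp only [E0.eq]
  have hβ1 : ∀ x : A, β' (β x) = Q0 • x := by
    intro x
    induction x using Germ.inductionOn with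
    | h x =>
      show ((fun n => E0.e' (E0.e (x n)) : ℕ → T) : Germ (U : Filter ℕ) T) =
        ((fun n => Q0 • x n : ℕ → T) : Germ (U : Filter ℕ) T)
      simp only [E0.h1]
  have hβ2 : ∀ x : A, β (β' x) = Q0 • x := by
    intro x
    induction x using Germ.inductionOn with
    | h x =>
      show ((fun n => E0.e (E0.e' (x n)) : ℕ → T) : Germ (U : Filter ℕ) T) =
        ((fun n => Q0 • x n : ℕ → T) : Germ (U : Filter ℕ) T)
      simp only [E0.h2]
  -- injectivity modulo the divisible part
  have hinj : ∀ x : A, ε x ∈ Dv A → x ∈ Dv A := by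
    intro x hx m hm
    obtain ⟨y, hy⟩ := hx m hm
    induction x using Germ.inductionOn with
    | h x =>
      induction y using Germ.inductionOn with
      | h y =>
        have h1 : ∀ᶠ k in (U : Filter ℕ), m • y k = (E k).e (x k) := Germ.coe_eq.1 hy
        have h2 : ∀ k : ℕ, ∃ z : T, (m • y k = (E k).e (x k) ∧ m.natAbs ≤ k) → m • z = x k := by
          intro k
          by_cases hk : m • y k = (E k).e (x k) ∧ m.natAbs ≤ k
          · obtain ⟨hk1, hk2⟩ := hk
            obtain ⟨a, b, hab⟩ := hQ k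
            have hdvd : m ∣ (k.factorial : ℤ) := by
              rw [← Int.natAbs_dvd_natAbs, Int.natAbs_natCast]
              exact Nat.dvd_factorial (Int.natAbs_pos.2 hm) hk2
            obtain ⟨c, hc⟩ := hdvd
            refine ⟨a • (E k).e' (y k) + (b * c) • x k, fun _ => ?_⟩
            have h3 : m • (E k).e' (y k) = (Q k) • x k := by
              rw [← map_zsmul, hk1, (E k).h1]
            rw [smul_add, smul_comm m a, h3, ← mul_smul, ← mul_smul, ← add_smul]
            have h4 : a * Q k + m * (b * c) = 1 := by rw [← hab, hc]; ring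
            rw [h4, one_smul]
          · exact ⟨0, fun h' => absurd h' hk⟩
        choose z hz using h2
        refine ⟨((z : ℕ → T) : Germ (U : Filter ℕ) T), ?_⟩
        apply Germ.coe_eq.2
        filter_upwards [h1, hU m.natAbs] with k hk1 hk2
        exact hz k ⟨hk1, hk2⟩
  -- surjectivity modulo the divisible part
  have hsurj : ∀ y : A, ∃ x : A, y - ε x ∈ Dv A := by
    intro y
    induction y using Germ.inductionOn with
    | h y =>
      have h2 : ∀ k : ℕ, ∃ a b : ℤ, a * Q k + b * (k.factorial : ℤ) = 1 := fun k => hQ k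
      choose a b hab using h2
      refine ⟨((fun k => a k • (E k).e' (y k) : ℕ → T) : Germ (U : Filter ℕ) T), ?_⟩
      intro m hm
      have h3 : ∀ k : ℕ, ∃ c : ℤ, m.natAbs ≤ k → (k.factorial : ℤ) = m * c := by
        intro k
        by_cases hk : m.natAbs ≤ k
        · have hdvd : m ∣ (k.factorial : ℤ) := by
            rw [← Int.natAbs_dvd_natAbs, Int.natAbs_natCast]
            exact Nat.dvd_factorial (Int.natAbs_pos.2 hm) hk
          obtain ⟨c, hc⟩ := hdvd
          exact ⟨c, fun _ => hc⟩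
        · exact ⟨0, fun h' => absurd h' hk⟩
      choose c hc using h3
      refine ⟨((fun k => (b k * c k) • y k : ℕ → T) : Germ (U : Filter ℕ) T), ?_⟩
      apply Germ.coe_eq.2
      filter_upwards [hU m.natAbs] with k hk
      show m • ((b k * c k) • y k) = y k - (E k).e (a k • (E k).e' (y k))
      rw [map_zsmul, (E k).h2, ← mul_smul, ← mul_smul, eq_sub_iff_add_eq, ← add_smul]
      have h4 : m * (b k * c k) + a k * Q k = 1 := by
        rw [← hab k, hc k hk]; ring
      rw [h4, one_smul]
  let θ0 : A →+ A := (AddMonoidHom.id A - p).comp (ε.comp (AddMonoidHom.id A - p)) + β.comp p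
  have hθ0 : ∀ x, θ0 x = (ε (x - p x) - p (ε (x - p x))) + β (p x) := fun x => rfl
  have hθF : ∀ (f : F) (x : A), θ0 (f • x) = α f • θ0 x := by
    intro f x
    rw [hθ0, hθ0, hp3, ← smul_sub, hεF, hp3, hβF, smul_add, smul_sub]
  have hpθ : ∀ x, p (θ0 x) = β (p x) := by
    intro x
    rw [hθ0, map_add, map_sub, hp2 _ (hp1 _), sub_self, zero_add, hp2 _ (map_Dv β (hp1 x))]
  have hβinj : ∀ x, β x = 0 → x = 0 := by
    intro x hx
    apply hA Q0 x hQ0
    rw [← hβ1, hx, map_zero]
  have hbij : Function.Bijective θ0 := by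
    constructor
    · rw [injective_iff_map_eq_zero]
      intro x hx
      have h1 : p x = 0 := by
        apply hβinj
        rw [← hpθ, hx, map_zero]
      have h2 := hθ0 x
      rw [hx, h1, sub_zero, map_zero, add_zero] at h2
      have h3 : ε x ∈ Dv A := by
        rw [sub_eq_zero.1 h2.symm]
        exact hp1 _
      have h4 := hinj x h3
      rw [← hp2 x h4, h1]
    · intro y
      -- the divisible component
      obtain ⟨d, hd1, hd2⟩ := Dv_div hA (hp1 y) hQ0
      obtain ⟨x, hx⟩ := hsurj (y - p y)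
      have hd3 : β (β' d) = p y := by rw [hβ2, hd2]
      have hd4 : β' d ∈ Dv A := map_Dv β' hd1
      refine ⟨(x - p x) + β' d, ?_⟩
      have e1 : p ((x - p x) + β' d) = β' d := by
        rw [map_add, map_sub, hp2 _ (hp1 x), sub_self, zero_add, hp2 _ hd4]
      rw [hθ0, e1, add_sub_cancel_right, hd3]
      have e2 : ε (x - p x) - p (ε (x - p x)) = y - p y := by
        have h5 : ∀ z ∈ Dv A, z - p z = 0 := fun z hz => by rw [hp2 z hz, sub_self]
        have h6 := h5 _ hx
        have h7 := h5 _ (map_Dv ε (hp1 x))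
        have h8 : p (p y) = p y := hp2 _ (hp1 y)
        rw [map_sub, map_sub, h8, sub_self, zero_sub, sub_neg_eq_add] at h6
        rw [map_sub, map_sub]
        rw [sub_eq_zero] at h7
        rw [← h7]
        have h9 : y - p y - ε x + p (ε x) = 0 := h6
        have h10 : ε x - p (ε x) = y - p y := by
          have : y - p y - (ε x - p (ε x)) = 0 := by rw [← h9]; abel
          exact (sub_eq_zero.1 this).symm
        rw [← h10]
        abel
      rw [e2, sub_add_cancel]
  exact ⟨AddEquiv.ofBijective θ0 hbij, hθF⟩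

/-- **Tuples related by twists of norm prime to every integer have the same type.** -/
theorem sameType_of_twists (hT : TF T) (α : F ≃* F) 
    (E : ∀ N : ℤ, N ≠ 0 → ∃ Q : ℤ, IsCoprime Q N ∧ Nonempty (Twist T F α Q)) {k : ℕ}
    (f : Fin k → F) :
    SameType (fun i => (⟨0, f i⟩ : Aff T F)) (fun i => (⟨0, α (f i)⟩ : Aff T F)) := by
  classical
  have h1 : ∀ n : ℕ, ∃ Q : ℤ, IsCoprime Q (n.factorial : ℤ) ∧ Nonempty (Twist T F α Q) := fun n =>
    E _ (by exact_mod_cast n.factorial_ne_zero)
  choose Q hQ hE using h1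
  obtain ⟨Q0, hQ0, ⟨E0⟩⟩ := E 2 (by norm_num)
  have hQ0' : Q0 ≠ 0 := by
    rintro rfl
    rw [isCoprime_zero_left] at hQ0
    rw [Int.isUnit_iff] at hQ0
    omega
  set U : Ultrafilter ℕ := Filter.hyperfilter ℕ with hUdef
  have hU : ∀ k : ℕ, ∀ᶠ n in (U : Filter ℕ), k ≤ n := by
    intro k
    have h2 : ∀ᶠ n in (Filter.cofinite : Filter ℕ), k ≤ n := by
      rw [Nat.cofinite_eq_atTop]
      exact Filter.eventually_ge_atTop k
    exact Filter.hyperfilter_le_cofinite h2
  obtain ⟨θ, hθ⟩ := exists_theta U hT α hU Q (fun n => (hE n).some) hQ Q0 E0 hQ0'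
  let Θ : Aff (Germ (U : Filter ℕ) T) F ≃* Aff (Germ (U : Filter ℕ) T) F :=
    { toFun := fun a => ⟨θ a.tr, α a.lin⟩
      invFun := fun a => ⟨θ.symm a.tr, α.symm a.lin⟩
      left_inv := by rintro ⟨a, f⟩; simp
      right_inv := by rintro ⟨a, f⟩; simp
      map_mul' := by
        intro a b
        ext
        · show θ (a.tr + a.lin • b.tr) = θ a.tr + α a.lin • θ b.tr
          rw [map_add, hθ]
        · exact map_mul α _ _ }
  intro φ
  have a1 := los_aff U φ (fun i => (⟨0, f i⟩ : Aff T F))
  have a2 := los_aff U φ (fun i => (⟨0, α (f i)⟩ : Aff T F))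
  have a3 := realize_iso Θ φ (fun i => (⟨(((0 : T) : Germ (U : Filter ℕ) T)), f i⟩ :
    Aff (Germ (U : Filter ℕ) T) F))
  have h3 : (fun i => Θ (⟨((0 : T) : Germ (U : Filter ℕ) T), f i⟩ :
      Aff (Germ (U : Filter ℕ) T) F)) =
      fun i => (⟨((0 : T) : Germ (U : Filter ℕ) T), α (f i)⟩ :
        Aff (Germ (U : Filter ℕ) T) F) := by
    funext i
    ext
    · show θ 0 = 0
      exact map_zero θ
    · rfl
  rw [h3] at a3
  exact (a1.symm.trans a3.symm).trans a2

end genus

end Pool.Agent.Q317.HC
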