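import Pool.Agent.Q317.HC.Genus

/-!
# The lattice and the point group

`E` is the space of all `x : ZMod 5 → ℂ` with sum zero, `T` the lattice of the `x` with Gaussian
integers as coordinates. The point group `F` is generated by the multiplication `I` by `i`, the
shift `S` and the map `H`, `(H x) b = conj (x (3 b))`.
-/

set_option autoImplicit false
set_option linter.unusedSectionVars false

open FirstOrder Filter

namespace Pool.Agent.Q317.HC

/-- `ℂ ^ 5` as a real Euclidean space. -/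
abbrev V : Type := PiLp 2 (fun _ : ZMod 5 => ℂ)

/-- The vectors with sum zero. -/
def E : Submodule ℝ V where
  carrier := {x | ∑ b, x b = 0}
  zero_mem' := by simp
  add_mem' := by
    intro x y hx hy
    simp only [Set.mem_ofPred_eq, PiLp.add_apply] at *
    rw [Finset.sum_add_distrib, hx, hy, add_zero]
  smul_mem' := by
    intro c x hx
    simp only [Set.mem_ofPred_eq, PiLp.smul_apply] at *
    rw [← Finset.smul_sum, hx, smul_zero]

theorem mem_E {x : V} : x ∈ E ↔ ∑ b, x b = 0 := Iff.rfl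

theorem sum5 (f : ZMod 5 → ℂ) : ∑ b, f b = f 0 + f 1 + f 2 + f 3 + f 4 := by
  exact Fin.sum_univ_five f

theorem E_sum (x : E) : x.1 0 + x.1 1 + x.1 2 + x.1 3 + x.1 4 = 0 := by
  rw [← sum5]
  exact x.2

theorem E_ext {x y : E} (h : ∀ b, x.1 b = y.1 b) : x = y := by
  apply Subtype.ext
  apply PiLp.ext
  exact h

/-- A vector of `E` from its coordinates. -/
def mk (f : ZMod 5 → ℂ) (h : ∑ b, f b = 0) : E := ⟨WithLp.toLp 2 f, h⟩

@[simp] theorem mk_apply (f : ZMod 5 → ℂ) (h : ∑ b, f b = 0) (b : ZMod 5) :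
    (mk f h).1 b = f b := rfl

theorem E_norm (x : E) : ‖x‖ = Real.sqrt (∑ b, ‖x.1 b‖ ^ 2) := by
  show ‖x.1‖ = _
  exact PiLp.norm_eq_of_L2 x.1

/-- Multiplication by `i`. -/
noncomputable def I : E ≃ₗᵢ[ℝ] E where
  toFun x := mk (fun b => Complex.I * x.1 b) (by rw [← Finset.mul_sum, x.2, mul_zero])
  invFun x := mk (fun b => -(Complex.I * x.1 b)) (by
    rw [Finset.sum_neg_distrib, ← Finset.mul_sum, x.2, mul_zero, neg_zero])
  map_add' x y := E_ext fun b => by
    show Complex.I * (x.1 b + y.1 b) = Complex.I * x.1 b + Complex.I * y.1 b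
    ring
  map_smul' c x := E_ext fun b => by
    show Complex.I * (c • x.1 b) = c • (Complex.I * x.1 b)
    simp only [Complex.real_smul]
    ring
  left_inv x := E_ext fun b => by
    show -(Complex.I * (Complex.I * x.1 b)) = x.1 b
    rw [← mul_assoc, Complex.I_mul_I]; ring
  right_inv x := E_ext fun b => by
    show Complex.I * (-(Complex.I * x.1 b)) = x.1 b
    rw [mul_neg, ← mul_assoc, Complex.I_mul_I]; ring
  norm_map' x := by
    rw [E_norm, E_norm]
    congr 1
    refine Finset.sum_congr rfl fun b _ => ?_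
    show ‖Complex.I * x.1 b‖ ^ 2 = _
    rw [norm_mul, Complex.norm_I, one_mul]

/-- The shift. -/
noncomputable def S : E ≃ₗᵢ[ℝ] E where
  toFun x := mk (fun b => x.1 (b - 1))
    ((Equiv.sum_comp (Equiv.subRight (1 : ZMod 5)) (fun b => x.1 b)).trans x.2)
  invFun x := mk (fun b => x.1 (b + 1))
    ((Equiv.sum_comp (Equiv.addRight (1 : ZMod 5)) (fun b => x.1 b)).trans x.2)
  map_add' x y := E_ext fun b => rfl
  map_smul' c x := E_ext fun b => rfl
  left_inv x := E_ext fun b => by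
    show x.1 (b + 1 - 1) = x.1 b
    rw [add_sub_cancel_right]
  right_inv x := E_ext fun b => by
    show x.1 (b - 1 + 1) = x.1 b
    rw [sub_add_cancel]
  norm_map' x := by
    rw [E_norm, E_norm]
    congr 1
    exact Equiv.sum_comp (Equiv.subRight (1 : ZMod 5)) (fun b => ‖x.1 b‖ ^ 2)

/-- Multiplication by `3` on the indices. -/
def mul3 : ZMod 5 ≃ ZMod 5 where
  toFun b := 3 * b
  invFun b := 2 * b
  left_inv := by decide
  right_inv := by decide

/-- Complex conjugation of the coordinates and of the exponents, `(H x) b = conj (x (3 b))`. -/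
noncomputable def H : E ≃ₗᵢ[ℝ] E where
  toFun x := mk (fun b => (starRingEnd ℂ) (x.1 (mul3 b))) (by
    rw [← map_sum, Equiv.sum_comp mul3 (fun b => x.1 b), x.2, map_zero])
  invFun x := mk (fun b => (starRingEnd ℂ) (x.1 (mul3.symm b))) (by
    rw [← map_sum, Equiv.sum_comp mul3.symm (fun b => x.1 b), x.2, map_zero])
  map_add' x y := E_ext fun b => by
    show (starRingEnd ℂ) (x.1 _ + y.1 _) = _
    rw [map_add]; rfl
  map_smul' c x := E_ext fun b => by
    show (starRingEnd ℂ) (c • x.1 _) = c • (starRingEnd ℂ) (x.1 _)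
    simp
  left_inv x := E_ext fun b => by
    show (starRingEnd ℂ) ((starRingEnd ℂ) (x.1 (mul3 (mul3.symm b)))) = x.1 b
    simp
  right_inv x := E_ext fun b => by
    show (starRingEnd ℂ) ((starRingEnd ℂ) (x.1 (mul3.symm (mul3 b)))) = x.1 b
    simp
  norm_map' x := by
    rw [E_norm, E_norm]
    congr 1
    rw [← Equiv.sum_comp mul3 (fun b => ‖x.1 b‖ ^ 2)]
    refine Finset.sum_congr rfl fun b _ => ?_
    show ‖(starRingEnd ℂ) (x.1 (mul3 b))‖ ^ 2 = _
    rw [RCLike.norm_conj]

@[simp] theorem I_apply (x : E) (b : ZMod 5) : (I x).1 b = Complex.I * x.1 b := rfl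
@[simp] theorem S_apply (x : E) (b : ZMod 5) : (S x).1 b = x.1 (b - 1) := rfl
@[simp] theorem Sinv_apply (x : E) (b : ZMod 5) : (S⁻¹ x).1 b = x.1 (b + 1) := rfl
@[simp] theorem H_apply (x : E) (b : ZMod 5) : (H x).1 b = (starRingEnd ℂ) (x.1 (3 * b)) := rfl

/-- The group of linear isometries. -/
noncomputable abbrev L : Type := E ≃ₗᵢ[ℝ] E

theorem L_ext {f g : L} (h : ∀ x b, (f x).1 b = (g x).1 b) : f = g :=
  LinearIsometryEquiv.ext fun x => E_ext (h x)

theorem L_mul (f g : L) (x : E) : (f * g) x = f (g x) := rfl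

theorem I_pow : I ^ 4 = 1 := by
  apply L_ext
  intro x b
  simp only [pow_succ, pow_zero, one_mul, L_mul, I_apply]
  show _ = x.1 b
  have := Complex.I_mul_I
  linear_combination (Complex.I * Complex.I - 1) * x.1 b * this

theorem S_pow : S ^ 5 = 1 := by
  apply L_ext
  intro x b
  simp only [pow_succ, pow_zero, one_mul, L_mul, S_apply]
  show _ = x.1 b
  have h : b - 1 - 1 - 1 - 1 - 1 = b := by revert b; decide
  rw [h]

theorem H_pow : H ^ 4 = 1 := by
  apply L_ext
  intro x b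
  simp only [pow_succ, pow_zero, one_mul, L_mul, H_apply, Complex.conj_conj]
  show _ = x.1 b
  have h : 3 * (3 * (3 * (3 * b))) = b := by revert b; decide
  rw [h]

theorem S_mul_I : S * I = I * S := by
  apply L_ext
  intro x b
  rfl

theorem H_mul_I : H * I = I ^ 3 * H := by
  apply L_ext
  intro x b
  simp only [pow_succ, pow_zero, one_mul, L_mul, I_apply, H_apply, map_mul, Complex.conj_I]
  have := Complex.I_mul_I
  linear_combination (-Complex.I * (starRingEnd ℂ) (x.1 (3 * b))) * this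

theorem H_mul_S : H * S = S ^ 2 * H := by
  apply L_ext
  intro x b
  simp only [pow_succ, pow_zero, one_mul, L_mul, S_apply, H_apply]
  have h : 3 * b - 1 = 3 * (b - 1 - 1) := by revert b; decide
  rw [h]

/-- The point group. -/
noncomputable def F : Subgroup L := Subgroup.closure {I, S, H}

theorem I_mem : I ∈ F := Subgroup.subset_closure (by simp)
theorem S_mem : S ∈ F := Subgroup.subset_closure (by simp)
theorem H_mem : H ∈ F := Subgroup.subset_closure (by simp)

theorem S_pow_mul_I (b : ℕ) : S ^ b * I = I * S ^ b := by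
  induction b with
  | zero => simp
  | succ b ih => rw [pow_succ, mul_assoc, S_mul_I, ← mul_assoc, ih, mul_assoc]

theorem H_mul_I_pow (a : ℕ) : H * I ^ a = I ^ (3 * a) * H := by
  induction a with
  | zero => simp
  | succ a ih =>
    rw [pow_succ, ← mul_assoc, ih, mul_assoc, H_mul_I, ← mul_assoc, ← pow_add]
    rfl

theorem H_mul_S_pow (a : ℕ) : H * S ^ a = S ^ (2 * a) * H := by
  induction a with
  | zero => simp
  | succ a ih =>
    rw [pow_succ, ← mul_assoc, ih, mul_assoc, H_mul_S, ← mul_assoc, ← pow_add]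
    rfl

theorem S_mul_I_pow (a : ℕ) : S * I ^ a = I ^ a * S := by
  induction a with
  | zero => simp
  | succ a ih => rw [pow_succ, ← mul_assoc, ih, mul_assoc, S_mul_I, ← mul_assoc]

/-- The normal form of the elements of `F`. -/
theorem F_normal {f : L} (hf : f ∈ F) : ∃ a b c : ℕ, f = I ^ a * S ^ b * H ^ c := by
  have hI : I⁻¹ = I ^ 3 := by
    rw [inv_eq_iff_mul_eq_one, ← pow_succ']
    exact I_pow
  have hS : S⁻¹ = S ^ 4 := by
    rw [inv_eq_iff_mul_eq_one, ← pow_succ']
    exact S_pow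
  have hH : H⁻¹ = H ^ 3 := by
    rw [inv_eq_iff_mul_eq_one, ← pow_succ']
    exact H_pow
  have h1 : ∀ g : L, (∃ a b c : ℕ, g = I ^ a * S ^ b * H ^ c) →
      ∃ a b c : ℕ, I * g = I ^ a * S ^ b * H ^ c := by
    rintro g ⟨a, b, c, rfl⟩
    exact ⟨a + 1, b, c, by rw [pow_succ']; simp only [mul_assoc]⟩
  have h2 : ∀ g : L, (∃ a b c : ℕ, g = I ^ a * S ^ b * H ^ c) →
      ∃ a b c : ℕ, S * g = I ^ a * S ^ b * H ^ c := by
    rintro g ⟨a, b, c, rfl⟩
    refine ⟨a, b + 1, c, ?_⟩
    rw [← mul_assoc, ← mul_assoc, S_mul_I_pow, pow_succ']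
    simp only [mul_assoc]
  have h3 : ∀ g : L, (∃ a b c : ℕ, g = I ^ a * S ^ b * H ^ c) →
      ∃ a b c : ℕ, H * g = I ^ a * S ^ b * H ^ c := by
    rintro g ⟨a, b, c, rfl⟩
    refine ⟨3 * a, 2 * b, c + 1, ?_⟩
    rw [← mul_assoc, ← mul_assoc, H_mul_I_pow, mul_assoc (I ^ (3 * a)), H_mul_S_pow, pow_succ']
    simp only [mul_assoc]
  have h4 : ∀ x ∈ ({I, S, H} : Set L), ∀ g : L, (∃ a b c : ℕ, g = I ^ a * S ^ b * H ^ c) →
      ∃ a b c : ℕ, x * g = I ^ a * S ^ b * H ^ c := by
    intro x hx g hg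
    simp only [Set.mem_insert_iff, Set.mem_singleton_iff] at hx
    rcases hx with rfl | rfl | rfl
    · exact h1 g hg
    · exact h2 g hg
    · exact h3 g hg
  have h5 : ∀ x ∈ ({I, S, H} : Set L), ∀ (n : ℕ) (g : L),
      (∃ a b c : ℕ, g = I ^ a * S ^ b * H ^ c) →
      ∃ a b c : ℕ, x ^ n * g = I ^ a * S ^ b * H ^ c := by
    intro x hx n
    induction n with
    | zero => intro g hg; simpa using hg
    | succ n ih =>
      intro g hg
      rw [pow_succ, mul_assoc]
      exact ih _ (h4 x hx g hg)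
  have h6 : ∀ x ∈ ({I, S, H} : Set L), ∀ g : L,
      (∃ a b c : ℕ, g = I ^ a * S ^ b * H ^ c) →
      ∃ a b c : ℕ, x⁻¹ * g = I ^ a * S ^ b * H ^ c := by
    intro x hx g hg
    have hx' := hx
    simp only [Set.mem_insert_iff, Set.mem_singleton_iff] at hx'
    rcases hx' with rfl | rfl | rfl
    · rw [hI]; exact h5 _ hx 3 g hg
    · rw [hS]; exact h5 _ hx 4 g hg
    · rw [hH]; exact h5 _ hx 3 g hg
  refine Subgroup.closure_induction_left (p := fun g _ => ∃ a b c : ℕ, g = I ^ a * S ^ b * H ^ c)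
    ⟨0, 0, 0, by simp⟩ ?_ ?_ hf
  · intro x hx y _ hy
    exact h4 x hx y hy
  · intro x hx y _ hy
    exact h6 x hx y hy

instance F_finite : Finite F := by
  have h1 : (F : Set L) ⊆ Set.range (fun t : Fin 4 × Fin 5 × Fin 4 =>
      I ^ (t.1 : ℕ) * S ^ (t.2.1 : ℕ) * H ^ (t.2.2 : ℕ)) := by
    intro f hf
    obtain ⟨a, b, c, rfl⟩ := F_normal hf
    refine ⟨(⟨a % 4, Nat.mod_lt _ (by norm_num)⟩, ⟨b % 5, Nat.mod_lt _ (by norm_num)⟩,
      ⟨c % 4, Nat.mod_lt _ (by norm_num)⟩), ?_⟩
    show I ^ (a % 4) * S ^ (b % 5) * H ^ (c % 4) = _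
    rw [← pow_eq_pow_mod a I_pow, ← pow_eq_pow_mod b S_pow, ← pow_eq_pow_mod c H_pow]
  exact Set.Finite.to_subtype ((Set.finite_range _).subset h1)

end Pool.Agent.Q317.HC
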