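import Pool.Agent.Q317.HC.Twisted

/-!
# There is no automorphism
-/

set_option autoImplicit false
set_option linter.unusedSectionVars false

open FirstOrder Filter

namespace Pool.Agent.Q317.HC

/-- A vector with given coordinates. -/
def vec (a b c d e : ℂ) : ZMod 5 → ℂ := (![a, b, c, d, e] : Fin 5 → ℂ)

@[simp] theorem vec_0 (a b c d e : ℂ) : vec a b c d e 0 = a := rfl
@[simp] theorem vec_1 (a b c d e : ℂ) : vec a b c d e 1 = b := rfl
@[simp] theorem vec_2 (a b c d e : ℂ) : vec a b c d e 2 = c := rfl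
@[simp] theorem vec_3 (a b c d e : ℂ) : vec a b c d e 3 = d := rfl
@[simp] theorem vec_4 (a b c d e : ℂ) : vec a b c d e 4 = e := rfl

theorem vec_sum (a b c d e : ℂ) : ∑ i, vec a b c d e i = a + b + c + d + e := by
  rw [sum5]; rfl

/-- Rounding the real and the imaginary part. -/
noncomputable def rd (z : ℂ) : ℂ := (round z.re : ℂ) + (round z.im : ℂ) * Complex.I

theorem rd_int (z : ℂ) : ∃ m n : ℤ, rd z = (m : ℂ) + n * Complex.I := ⟨_, _, rfl⟩

theorem rd_dist (z : ℂ) : ‖z - rd z‖ ≤ 1 := by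
  have h1 : (z - rd z).re = z.re - round z.re := by simp [rd]
  have h2 : (z - rd z).im = z.im - round z.im := by simp [rd]
  have h3 := Complex.norm_le_abs_re_add_abs_im (z - rd z)
  rw [h1, h2] at h3
  have h4 := abs_sub_round z.re
  have h5 := abs_sub_round z.im
  linarith

/-- Every vector is at distance at most `5` of the lattice. -/
theorem cocompact (x : E) : ∃ t ∈ T, ‖x - t‖ ≤ 5 := by
  let r : ZMod 5 → ℂ := fun b => rd (x.1 b)
  have hr : ∀ b, ‖x.1 b - r b‖ ≤ 1 := fun b => rd_dist _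
  refine ⟨mk (vec (-(r 1 + r 2 + r 3 + r 4)) (r 1) (r 2) (r 3) (r 4)) (by
    rw [vec_sum]; ring), ?_, ?_⟩
  · apply forall5
    · obtain ⟨m1, n1, h1⟩ := rd_int (x.1 1)
      obtain ⟨m2, n2, h2⟩ := rd_int (x.1 2)
      obtain ⟨m3, n3, h3⟩ := rd_int (x.1 3)
      obtain ⟨m4, n4, h4⟩ := rd_int (x.1 4)
      refine ⟨-(m1 + m2 + m3 + m4), -(n1 + n2 + n3 + n4), ?_⟩
      rw [mk_apply, vec_0]
      show -(rd (x.1 1) + rd (x.1 2) + rd (x.1 3) + rd (x.1 4)) = _
      rw [h1, h2, h3, h4]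
      push_cast
      ring
    · exact rd_int _
    · exact rd_int _
    · exact rd_int _
    · exact rd_int _
  · rw [E_norm]
    apply Real.sqrt_le_iff.2
    refine ⟨by norm_num, ?_⟩
    have e0 : ∀ b, ((x - mk (vec (-(r 1 + r 2 + r 3 + r 4)) (r 1) (r 2) (r 3) (r 4)) (by
      rw [vec_sum]; ring) : E)).1 b =
        x.1 b - vec (-(r 1 + r 2 + r 3 + r 4)) (r 1) (r 2) (r 3) (r 4) b := fun b => rfl
    simp only [e0]
    have e1 : ∑ b, ‖x.1 b - vec (-(r 1 + r 2 + r 3 + r 4)) (r 1) (r 2) (r 3) (r 4) b‖ ^ 2 =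
        ‖x.1 0 - -(r 1 + r 2 + r 3 + r 4)‖ ^ 2 + ‖x.1 1 - r 1‖ ^ 2 + ‖x.1 2 - r 2‖ ^ 2 +
          ‖x.1 3 - r 3‖ ^ 2 + ‖x.1 4 - r 4‖ ^ 2 := by
      exact Fin.sum_univ_five _
    rw [e1]
    have hs := E_sum x
    have e2 : x.1 0 - -(r 1 + r 2 + r 3 + r 4) = -((x.1 1 - r 1) + (x.1 2 - r 2) +
        (x.1 3 - r 3) + (x.1 4 - r 4)) := by linear_combination hs
    have e3 : ‖x.1 0 - -(r 1 + r 2 + r 3 + r 4)‖ ≤ 4 := by
      rw [e2, norm_neg]
      refine (norm_add_le _ _).trans ?_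
      have a1 := norm_add_le (x.1 1 - r 1 + (x.1 2 - r 2)) (x.1 3 - r 3)
      have a2 := norm_add_le (x.1 1 - r 1) (x.1 2 - r 2)
      have := hr 1
      have := hr 2
      have := hr 3
      have := hr 4
      linarith
    have h1 := hr 1
    have h2 := hr 2
    have h3 := hr 3
    have h4 := hr 4
    have n0 := norm_nonneg (x.1 0 - -(r 1 + r 2 + r 3 + r 4))
    have n1 := norm_nonneg (x.1 1 - r 1)
    have n2 := norm_nonneg (x.1 2 - r 2)
    have n3 := norm_nonneg (x.1 3 - r 3)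
    have n4 := norm_nonneg (x.1 4 - r 4)
    nlinarith

/-- The action of the isometries on the lattice is faithful. -/
theorem faithful {f : L} (h : ∀ t ∈ T, f t = t) : f = 1 := by
  apply LinearIsometryEquiv.ext
  intro x
  show f x = x
  by_contra hne
  have hpos : 0 < ‖f x - x‖ := norm_pos_iff.2 (sub_ne_zero.2 hne)
  obtain ⟨n, hn⟩ := exists_nat_gt (10 / ‖f x - x‖)
  obtain ⟨t, ht, hd⟩ := cocompact ((n : ℝ) • x)
  have h1 : (n : ℝ) • (f x - x) = f ((n : ℝ) • x - t) - ((n : ℝ) • x - t) := by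
    rw [map_sub, map_smul, h t ht, smul_sub]
    abel
  have h2 : ‖(n : ℝ) • (f x - x)‖ ≤ 10 := by
    rw [h1]
    refine (norm_sub_le _ _).trans ?_
    rw [f.norm_map]
    linarith
  rw [norm_smul, Real.norm_natCast] at h2
  rw [div_lt_iff₀ hpos] at hn
  linarith

/-- A translation. -/
noncomputable def trs (t : T) : Aff T F := ⟨t, 1⟩

theorem pow_lin (x : Aff T F) (n : ℕ) : (x ^ n).lin = x.lin ^ n := by
  induction n with
  | zero => rfl
  | succ n ih => rw [pow_succ, Aff.mul_lin, ih, pow_succ]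

theorem trs_pow (s : T) (n : ℕ) : trs s ^ n = trs (n • s) := by
  induction n with
  | zero => rw [pow_zero, zero_smul]; rfl
  | succ n ih =>
    rw [pow_succ, ih]
    ext1
    · show n • s + (1 : F) • s = (n + 1) • s
      rw [one_smul, succ_nsmul]
    · exact mul_one _

theorem trs_comm (s : T) (x : Aff T F) (hx : x.lin = 1) : trs s * x = x * trs s := by
  ext1
  · show s + (1 : F) • x.tr = x.tr + x.lin • s
    rw [hx, one_smul, one_smul, add_comm]
  · show 1 * x.lin = x.lin * 1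
    rw [one_mul, mul_one]

/-- The translations are preserved by the automorphisms. -/
theorem aut_trs (σ : Aff T F ≃* Aff T F) (t : T) : (σ (trs t)).lin = 1 := by
  set n := Nat.card F with hn
  have hn0 : n ≠ 0 := Nat.card_pos.ne'
  set y := σ (trs t) with hy
  have h1 : ∀ z : Aff T F, y * z ^ n = z ^ n * y := by
    intro z
    obtain ⟨x, rfl⟩ := σ.surjective z
    rw [hy, ← map_pow, ← map_mul, ← map_mul]
    congr 1
    apply trs_comm
    rw [pow_lin, hn]
    exact pow_card_eq_one'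
  have h2 : ∀ s ∈ T, (y.lin : L) s = s := by
    intro s hs
    have h3 := congrArg Aff.tr (h1 (trs ⟨s, hs⟩))
    rw [trs_pow] at h3
    have h4 : y.tr + y.lin • (n • (⟨s, hs⟩ : T)) = n • (⟨s, hs⟩ : T) + (1 : F) • y.tr := h3
    rw [one_smul, add_comm, add_left_inj] at h4
    have h5 : (n : ℤ) • (y.lin • (⟨s, hs⟩ : T) - ⟨s, hs⟩) = 0 := by
      rw [smul_sub, natCast_zsmul, natCast_zsmul]
      rw [sub_eq_zero]
      refine Eq.trans ?_ h4
      exact (map_nsmul (DistribSMul.toAddMonoidHom T y.lin) n _).symm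
    have h6 := T_TF _ _ (by exact_mod_cast hn0) h5
    exact congrArg Subtype.val (sub_eq_zero.1 h6)
  have h7 := faithful h2
  exact Subtype.ext h7

/-- The vector `(0, i, -i, -i, i)`. -/
noncomputable def g0 : T := ⟨mk (vec 0 Complex.I (-Complex.I) (-Complex.I) Complex.I) (by
  rw [vec_sum]; ring), by
  apply forall5
  · exact ⟨0, 0, by simp⟩
  · exact ⟨0, 1, by simp⟩
  · exact ⟨0, -1, by simp⟩
  · exact ⟨0, -1, by simp⟩
  · exact ⟨0, 1, by simp⟩⟩

/-- The vector `(-2-2i, 1, i, i, 1)`. -/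
noncomputable def y1 : T := ⟨mk (vec (-2 - 2 * Complex.I) 1 Complex.I Complex.I 1) (by
  rw [vec_sum]; ring), by
  apply forall5
  · exact ⟨-2, -2, by simp; ring⟩
  · exact ⟨1, 0, by simp⟩
  · exact ⟨0, 1, by simp⟩
  · exact ⟨0, 1, by simp⟩
  · exact ⟨1, 0, by simp⟩⟩

/-- The vector `(-2-2i, i, 1, 1, i)`. -/
noncomputable def y2 : T := ⟨mk (vec (-2 - 2 * Complex.I) Complex.I 1 1 Complex.I) (by
  rw [vec_sum]; ring), by
  apply forall5
  · exact ⟨-2, -2, by simp; ring⟩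
  · exact ⟨0, 1, by simp⟩
  · exact ⟨1, 0, by simp⟩
  · exact ⟨1, 0, by simp⟩
  · exact ⟨0, 1, by simp⟩⟩

noncomputable def Ii : F := ⟨I, I_mem⟩
noncomputable def Ss : F := ⟨S, S_mem⟩
noncomputable def Hh : F := ⟨H, H_mem⟩

/-- The operator `ρ`. -/
noncomputable def rho (x : T) : T := Ii • (x + (2 : ℤ) • (Ss • x + Ss⁻¹ • x))

theorem rho_apply (x : T) (b : ZMod 5) : (rho x).1.1 b =
    Complex.I * (x.1.1 b + 2 * (x.1.1 (b - 1) + x.1.1 (b + 1))) := by
  show Complex.I * (x.1.1 b + (2 : ℤ) • (x.1.1 (b - 1) + x.1.1 (b + 1))) = _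
  rw [zsmul_eq_mul]
  push_cast
  ring

/-- The fixed vectors of `H`. -/
theorem fixed_H {x : T} (hx : Hh • x = x) : ∃ a b : ℤ, x = b • g0 + a • rho g0 := by
  have h : ∀ b, (starRingEnd ℂ) (x.1.1 (3 * b)) = x.1.1 b := fun b =>
    congrArg (fun v : T => v.1.1 b) hx
  obtain ⟨a, b, hab⟩ := x.2 1
  have hs := E_sum x.1
  have e31 : (3 : ZMod 5) * 2 = 1 := by decide
  have e32 : (3 : ZMod 5) * 1 = 3 := by decide
  have e33 : (3 : ZMod 5) * 3 = 4 := by decide
  have e34 : (3 : ZMod 5) * 4 = 2 := by decide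
  have h2 := h 2
  rw [e31, hab] at h2
  have h4 := h 4
  rw [e34, ← h2] at h4
  have h3 := h 3
  rw [e33, ← h4] at h3
  simp only [map_add, map_mul, Complex.conj_I, map_intCast, Complex.conj_conj, map_neg,
    neg_neg, mul_neg] at h2 h3 h4
  refine ⟨a, b, ?_⟩
  apply Subtype.ext
  apply E_ext
  have hI := Complex.I_mul_I
  have key : ∀ c, ((b • g0 + a • rho g0 : T)).1.1 c = b * g0.1.1 c + a * (rho g0).1.1 c := by
    intro c
    show b • g0.1.1 c + a • (rho g0).1.1 c = _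
    rw [zsmul_eq_mul, zsmul_eq_mul]
  intro c
  rw [key, rho_apply]
  revert c
  unfold g0
  simp only [mk_apply]
  apply forall5
  · simp only [z01, y01, vec_0, vec_1, vec_4]
    linear_combination hs - hab + h2 + h3 + h4 - 4 * (a : ℂ) * hI
  · simp only [z11, y11, vec_0, vec_1, vec_2]
    linear_combination hab + (a : ℂ) * hI
  · simp only [z21, y21, vec_1, vec_2, vec_3]
    linear_combination -h2 + (a : ℂ) * hI
  · simp only [z31, y31, vec_2, vec_3, vec_4]
    linear_combination -h3 + (a : ℂ) * hI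
  · simp only [z41, y41, vec_0, vec_3, vec_4]
    linear_combination -h4 + (a : ℂ) * hI

/-- The fixed vectors of `I H`. -/
theorem fixed_IH {y : T} (hy : (Ii * Hh) • y = y) {c d : ℤ}
    (hcd : y.1.1 1 = (c : ℂ) + d * Complex.I) :
    (rho y).1.1 1 = ((2 * c + 3 * d : ℤ) : ℂ) + ((-3 * c - 2 * d : ℤ) : ℂ) * Complex.I := by
  have hI := Complex.I_mul_I
  have h : ∀ b, Complex.I * (starRingEnd ℂ) (y.1.1 (3 * b)) = y.1.1 b := fun b =>
    congrArg (fun v : T => v.1.1 b) hy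
  have hs := E_sum y.1
  have e31 : (3 : ZMod 5) * 2 = 1 := by decide
  have e33 : (3 : ZMod 5) * 3 = 4 := by decide
  have e34 : (3 : ZMod 5) * 4 = 2 := by decide
  have h2 := h 2
  rw [e31, hcd] at h2
  have h4 := h 4
  rw [e34, ← h2] at h4
  have h3 := h 3
  rw [e33, ← h4] at h3
  simp only [map_add, map_mul, Complex.conj_I, map_intCast, Complex.conj_conj, map_neg,
    neg_neg, mul_neg] at h2 h3 h4
  rw [rho_apply, z11, y11]
  push_cast
  have k2 : y.1.1 2 = (d : ℂ) + c * Complex.I := by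
    linear_combination -h2 - (d : ℂ) * hI
  have k4 : y.1.1 4 = (c : ℂ) + d * Complex.I := by
    linear_combination -h4 + (-(c : ℂ) - d * Complex.I) * hI
  have k3 : y.1.1 3 = (d : ℂ) + c * Complex.I := by
    linear_combination -h3 + (-(c : ℂ) * Complex.I + d * Complex.I ^ 2 - d) * hI
  have k0 : y.1.1 0 = -(2 * (c + d) : ℂ) * (1 + Complex.I) := by
    linear_combination hs - hcd - k2 - k3 - k4
  rw [k0, k2, hcd]
  linear_combination (-(2 * c + 3 * d) : ℂ) * hI

theorem no_aut (σ : Aff T F ≃* Aff T F) (h1 : σ ⟨0, Ii⟩ = ⟨0, Ii⟩) (h2 : σ ⟨0, Ss⟩ = ⟨0, Ss⟩)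
    (h3 : σ ⟨0, Hh⟩ = ⟨0, Ii * Hh⟩) : False := by
  let θ : T → T := fun t => (σ (trs t)).tr
  have hθ : ∀ t, σ (trs t) = trs (θ t) := by
    intro t
    ext1
    · rfl
    · exact aut_trs σ t
  have hadd : ∀ s t, θ (s + t) = θ s + θ t := by
    intro s t
    have e1 : trs (s + t) = trs s * trs t := by
      ext1
      · show s + t = s + (1 : F) • t
        rw [one_smul]
      · exact (one_mul _).symm
    show (σ (trs (s + t))).tr = _
    rw [e1, map_mul, hθ s, hθ t]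
    show θ s + (1 : F) • θ t = _
    rw [one_smul]
  let θ' : T →+ T := AddMonoidHom.mk' θ hadd
  have hinj : Function.Injective θ := by
    intro s t hst
    have e1 : σ (trs s) = σ (trs t) := by rw [hθ, hθ, hst]
    exact congrArg Aff.tr (σ.injective e1)
  have hsurj : Function.Surjective θ := by
    intro t
    refine ⟨(σ.symm (trs t)).tr, ?_⟩
    have e1 : σ.symm (trs t) = trs (σ.symm (trs t)).tr := by
      ext1
      · rfl
      · exact aut_trs σ.symm t
    have e2 : σ (trs (σ.symm (trs t)).tr) = trs t := by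
      rw [← e1, MulEquiv.apply_symm_apply]
    exact congrArg Aff.tr e2
  have heq : ∀ (f f' : F), σ ⟨0, f⟩ = ⟨0, f'⟩ → ∀ t, θ (f • t) = f' • θ t := by
    intro f f' hf t
    have e1 : trs (f • t) = ⟨0, f⟩ * trs t * (⟨0, f⟩ : Aff T F)⁻¹ := by
      ext1
      · show f • t = 0 + f • t + (f * 1) • (-(f⁻¹ • (0 : T)))
        rw [smul_zero, neg_zero, smul_zero, add_zero, zero_add]
      · show 1 = f * 1 * f⁻¹
        rw [mul_one, mul_inv_cancel]
    show (σ (trs (f • t))).tr = _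
    rw [e1, map_mul, map_mul, map_inv, hf, hθ t]
    show 0 + f' • θ t + (f' * 1) • (-(f'⁻¹ • (0 : T))) = _
    rw [smul_zero, neg_zero, smul_zero, add_zero, zero_add]
  have hI := heq _ _ h1
  have hS := heq _ _ h2
  have hH := heq _ _ h3
  have hS' : σ ⟨0, Ss⁻¹⟩ = ⟨0, Ss⁻¹⟩ := by
    have e1 : (⟨0, Ss⁻¹⟩ : Aff T F) = (⟨0, Ss⟩)⁻¹ := by
      ext1
      · show (0 : T) = -(Ss⁻¹ • (0 : T))
        rw [smul_zero, neg_zero]
      · rfl
    rw [e1, map_inv, h2]
  have hSi := heq _ _ hS'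
  have hz : ∀ (n : ℤ) t, θ (n • t) = n • θ t := fun n t => map_zsmul θ' n t
  have hrho : ∀ t, θ (rho t) = rho (θ t) := by
    intro t
    unfold rho
    rw [hI, hadd, hz, hadd, hS, hSi]
  have hg0 : Hh • g0 = g0 := by
    apply Subtype.ext
    apply E_ext
    intro b
    show (starRingEnd ℂ) (g0.1.1 (3 * b)) = g0.1.1 b
    revert b
    unfold g0
    have e30 : (3 : ZMod 5) * 0 = 0 := by decide
    have e31 : (3 : ZMod 5) * 2 = 1 := by decide
    have e32 : (3 : ZMod 5) * 1 = 3 := by decide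
    have e33 : (3 : ZMod 5) * 3 = 4 := by decide
    have e34 : (3 : ZMod 5) * 4 = 2 := by decide
    simp only [mk_apply]
    apply forall5
    · rw [e30]; simp
    · rw [e32]; simp
    · rw [e31]; simp
    · rw [e33]; simp
    · rw [e34]; simp
  set γ := θ g0 with hγ
  have hγ1 : (Ii * Hh) • γ = γ := by rw [hγ, ← hH, hg0]
  obtain ⟨c, d, hcd⟩ := γ.2 1
  have hr := fixed_IH hγ1 hcd
  have hmain : ∀ y : T, (Ii * Hh) • y = y → ∃ a b : ℤ, y.1.1 1 =
      ((b * c + a * (2 * c + 3 * d) : ℤ) : ℂ) +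
        ((b * d + a * (-3 * c - 2 * d) : ℤ) : ℂ) * Complex.I := by
    intro y hy
    obtain ⟨x, rfl⟩ := hsurj y
    have hx : Hh • x = x := by
      apply hinj
      rw [hH, hy]
    obtain ⟨a, b, hab⟩ := fixed_H hx
    refine ⟨a, b, ?_⟩
    have e1 : θ x = b • γ + a • rho γ := by
      rw [hab, hadd, hz, hz, hrho]
    rw [e1]
    show b • γ.1.1 1 + a • (rho γ).1.1 1 = _
    rw [hr, hcd, zsmul_eq_mul, zsmul_eq_mul]
    push_cast
    ring
  have hfix : ∀ y : T, (∀ b, Complex.I * (starRingEnd ℂ) (y.1.1 (3 * b)) = y.1.1 b) →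
      (Ii * Hh) • y = y := fun y hy => Subtype.ext (E_ext hy)
  have hI2 := Complex.I_mul_I
  have c2 : (starRingEnd ℂ) 2 = 2 := map_ofNat _ 2
  have e30 : (3 : ZMod 5) * 0 = 0 := by decide
  have e31 : (3 : ZMod 5) * 2 = 1 := by decide
  have e32 : (3 : ZMod 5) * 1 = 3 := by decide
  have e33 : (3 : ZMod 5) * 3 = 4 := by decide
  have e34 : (3 : ZMod 5) * 4 = 2 := by decide
  have hy1 : (Ii * Hh) • y1 = y1 := by
    apply hfix
    unfold y1
    simp only [mk_apply]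
    apply forall5
    · rw [e30, vec_0, map_sub, map_neg, map_mul, c2, Complex.conj_I]
      linear_combination 2 * hI2
    · rw [e32]; simp
    · rw [e31]; simp
    · rw [e33]; simp
    · rw [e34]; simp
  have hy2 : (Ii * Hh) • y2 = y2 := by
    apply hfix
    unfold y2
    simp only [mk_apply]
    apply forall5
    · rw [e30, vec_0, map_sub, map_neg, map_mul, c2, Complex.conj_I]
      linear_combination 2 * hI2
    · rw [e32]; simp
    · rw [e31]; simp
    · rw [e33]; simp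
    · rw [e34]; simp
  obtain ⟨a1, b1, k1⟩ := hmain y1 hy1
  obtain ⟨a2, b2, k2⟩ := hmain y2 hy2
  have m1 : y1.1.1 1 = 1 := rfl
  have m2 : y2.1.1 1 = Complex.I := rfl
  rw [m1] at k1
  rw [m2] at k2
  have r1 := congrArg Complex.re k1
  have i1 := congrArg Complex.im k1
  have r2 := congrArg Complex.re k2
  have i2 := congrArg Complex.im k2
  simp only [Complex.add_re, Complex.add_im, Complex.mul_re, Complex.mul_im, Complex.intCast_re,
    Complex.intCast_im, Complex.I_re, Complex.I_im, Complex.one_re, Complex.one_im, mul_zero,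
    mul_one, zero_mul, sub_zero, add_zero, zero_add] at r1 i1 r2 i2
  have q1 : 1 = b1 * c + a1 * (2 * c + 3 * d) := by exact_mod_cast r1
  have q2 : 0 = b1 * d + a1 * (-3 * c - 2 * d) := by exact_mod_cast i1
  have q3 : 0 = b2 * c + a2 * (2 * c + 3 * d) := by exact_mod_cast r2
  have q4 : 1 = b2 * d + a2 * (-3 * c - 2 * d) := by exact_mod_cast i2
  have q5 : (3 * c ^ 2 + 4 * c * d + 3 * d ^ 2) * (a1 * b2 - a2 * b1) = 1 := by
    have e : (3 * c ^ 2 + 4 * c * d + 3 * d ^ 2) * (a1 * b2 - a2 * b1) =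
      (b1 * c + a1 * (2 * c + 3 * d)) * (b2 * d + a2 * (-3 * c - 2 * d)) -
      (b1 * d + a1 * (-3 * c - 2 * d)) * (b2 * c + a2 * (2 * c + 3 * d)) := by ring
    rw [e, ← q1, ← q2, ← q3, ← q4]
    norm_num
  have q6 : 3 * c ^ 2 + 4 * c * d + 3 * d ^ 2 = 1 ∨ 3 * c ^ 2 + 4 * c * d + 3 * d ^ 2 = -1 :=
    Int.isUnit_iff.1 (IsUnit.of_mul_eq_one _ q5)
  have q7 : 3 * c ^ 2 + 4 * c * d + 3 * d ^ 2 = 2 * (c + d) ^ 2 + c ^ 2 + d ^ 2 := by ring
  rw [q7] at q6
  have s1 : 0 ≤ (c + d) ^ 2 := sq_nonneg _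
  have s2 : 0 ≤ c ^ 2 := sq_nonneg _
  have s3 : 0 ≤ d ^ 2 := sq_nonneg _
  rcases q6 with q | q
  · have t1 : (c + d) ^ 2 = 0 := by omega
    have t2 : c + d = 0 := by simpa using t1
    have t3 : d = -c := by omega
    rw [t3] at q
    have t4 : 2 * c ^ 2 = 1 := by linarith [q, (by ring : 2 * (c + -c) ^ 2 + c ^ 2 + (-c) ^ 2 = 2 * c ^ 2)]
    omega
  · omega

end Pool.Agent.Q317.HC
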