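import Pool.Agent.Q317.HC.Lattice

/-!
# The twisted endomorphisms of the lattice
-/

set_option autoImplicit false
set_option linter.unusedSectionVars false

open FirstOrder Filter

namespace Pool.Agent.Q317.HC

/-- The lattice of the vectors with Gaussian integers as coordinates. -/
noncomputable def T : AddSubgroup E where
  carrier := {x | ∀ b, ∃ m n : ℤ, x.1 b = (m : ℂ) + n * Complex.I}
  zero_mem' := fun b => ⟨0, 0, by simp⟩
  add_mem' := by
    intro x y hx hy b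
    obtain ⟨m, n, h⟩ := hx b
    obtain ⟨m', n', h'⟩ := hy b
    refine ⟨m + m', n + n', ?_⟩
    show x.1 b + y.1 b = _
    rw [h, h']
    push_cast
    ring
  neg_mem' := by
    intro x hx b
    obtain ⟨m, n, h⟩ := hx b
    refine ⟨-m, -n, ?_⟩
    show -x.1 b = _
    rw [h]
    push_cast
    ring

theorem mem_T {x : E} : x ∈ T ↔ ∀ b, ∃ m n : ℤ, x.1 b = (m : ℂ) + n * Complex.I := Iff.rfl

theorem I_T {x : E} (hx : x ∈ T) : I x ∈ T := by
  intro b
  obtain ⟨m, n, h⟩ := hx b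
  refine ⟨-n, m, ?_⟩
  rw [I_apply, h]
  push_cast
  linear_combination (n : ℂ) * Complex.I_mul_I

theorem S_T {x : E} (hx : x ∈ T) : S x ∈ T := fun b => hx (b - 1)

theorem Sinv_T {x : E} (hx : x ∈ T) : S⁻¹ x ∈ T := fun b => hx (b + 1)

theorem H_T {x : E} (hx : x ∈ T) : H x ∈ T := by
  intro b
  obtain ⟨m, n, h⟩ := hx (3 * b)
  refine ⟨m, -n, ?_⟩
  rw [H_apply, h]
  simp

theorem F_T {f : L} (hf : f ∈ F) {x : E} (hx : x ∈ T) : f x ∈ T := by
  obtain ⟨a, b, c, rfl⟩ := F_normal hf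
  have h1 : ∀ (g : L), (∀ y ∈ T, g y ∈ T) → ∀ n : ℕ, ∀ y ∈ T, (g ^ n) y ∈ T := by
    intro g hg n
    induction n with
    | zero => intro y hy; exact hy
    | succ n ih =>
      intro y hy
      rw [pow_succ, L_mul]
      exact ih _ (hg y hy)
  rw [L_mul, L_mul]
  exact h1 I (fun y hy => I_T hy) a _ (h1 S (fun y hy => S_T hy) b _ (h1 H (fun y hy => H_T hy) c _ hx))

noncomputable instance : DistribMulAction F T where
  smul f t := ⟨(f : L) t.1, F_T f.2 t.2⟩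
  one_smul _ := rfl
  mul_smul _ _ _ := rfl
  smul_zero f := Subtype.ext (map_zero (f : L))
  smul_add f s t := Subtype.ext (map_add (f : L) s.1 t.1)

theorem smul_T_val (f : F) (t : T) : (f • t).1 = (f : L) t.1 := rfl

theorem T_TF : TF T := by
  intro n t hn ht
  have h1 : (n • t.1 : E) = 0 := congrArg Subtype.val ht
  apply Subtype.ext
  have h2 : ((n : ℝ) • t.1 : E) = 0 := by
    rw [← h1]
    exact Int.cast_smul_eq_zsmul ℝ n t.1
  rcases smul_eq_zero.1 h2 with h3 | h3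
  · exact absurd (by exact_mod_cast h3) hn
  · exact h3

/-- The operator `κ x = S x + S⁻¹ x + I (S² x + S⁻² x)`. -/
noncomputable def kap : E →ₗ[ℝ] E :=
  S.toLinearEquiv.toLinearMap + (S⁻¹ : L).toLinearEquiv.toLinearMap +
    (I * S * S).toLinearEquiv.toLinearMap + (I * S⁻¹ * S⁻¹).toLinearEquiv.toLinearMap

/-- The conjugate of `kap`. -/
noncomputable def kap' : E →ₗ[ℝ] E :=
  S.toLinearEquiv.toLinearMap + (S⁻¹ : L).toLinearEquiv.toLinearMap -
    (I * S * S).toLinearEquiv.toLinearMap - (I * S⁻¹ * S⁻¹).toLinearEquiv.toLinearMap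

theorem kap_apply (x : E) (b : ZMod 5) : (kap x).1 b =
    x.1 (b - 1) + x.1 (b + 1) + Complex.I * x.1 (b - 1 - 1) + Complex.I * x.1 (b + 1 + 1) := rfl

theorem kap'_apply (x : E) (b : ZMod 5) : (kap' x).1 b =
    x.1 (b - 1) + x.1 (b + 1) - Complex.I * x.1 (b - 1 - 1) - Complex.I * x.1 (b + 1 + 1) := rfl

/-- `(1 + i) p - q κ`. -/
noncomputable def opE (p q : ℤ) : E →ₗ[ℝ] E :=
  (p : ℝ) • (LinearMap.id + I.toLinearEquiv.toLinearMap) - (q : ℝ) • kap

/-- `(1 - i) p - q κ'`. -/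
noncomputable def opE' (p q : ℤ) : E →ₗ[ℝ] E :=
  (p : ℝ) • (LinearMap.id - I.toLinearEquiv.toLinearMap) - (q : ℝ) • kap'

theorem opE_apply (p q : ℤ) (x : E) (b : ZMod 5) : (opE p q x).1 b =
    p * (x.1 b + Complex.I * x.1 b) - q * (kap x).1 b := by
  show (p : ℝ) • (x.1 b + Complex.I * x.1 b) - (q : ℝ) • (kap x).1 b = _
  simp only [Complex.real_smul, Complex.ofReal_intCast]

theorem opE'_apply (p q : ℤ) (x : E) (b : ZMod 5) : (opE' p q x).1 b =
    p * (x.1 b - Complex.I * x.1 b) - q * (kap' x).1 b := by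
  show (p : ℝ) • (x.1 b - Complex.I * x.1 b) - (q : ℝ) • (kap' x).1 b = _
  simp only [Complex.real_smul, Complex.ofReal_intCast]

theorem forall5 {P : ZMod 5 → Prop} (h0 : P 0) (h1 : P 1) (h2 : P 2) (h3 : P 3) (h4 : P 4) :
    ∀ b, P b := by
  intro b
  fin_cases b
  · exact h0
  · exact h1
  · exact h2
  · exact h3
  · exact h4

/-- The norm form. -/
def Qf (p q : ℤ) : ℤ := 2 * p ^ 2 + 2 * p * q + 3 * q ^ 2

theorem z01 : (0 : ZMod 5) - 1 = 4 := by decide
theorem z11 : (1 : ZMod 5) - 1 = 0 := by decide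
theorem z21 : (2 : ZMod 5) - 1 = 1 := by decide
theorem z31 : (3 : ZMod 5) - 1 = 2 := by decide
theorem z41 : (4 : ZMod 5) - 1 = 3 := by decide
theorem y01 : (0 : ZMod 5) + 1 = 1 := by decide
theorem y11 : (1 : ZMod 5) + 1 = 2 := by decide
theorem y21 : (2 : ZMod 5) + 1 = 3 := by decide
theorem y31 : (3 : ZMod 5) + 1 = 4 := by decide
theorem y41 : (4 : ZMod 5) + 1 = 0 := by decide

theorem Qsmul (p q : ℤ) (x : E) (b : ZMod 5) :
    (((Qf p q : ℝ) • x : E).1 b) = (2 * (p : ℂ) ^ 2 + 2 * p * q + 3 * q ^ 2) * x.1 b := by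
  show (Qf p q : ℝ) • x.1 b = _
  rw [Complex.real_smul]
  unfold Qf
  push_cast
  ring

theorem opE'_opE (p q : ℤ) (x : E) : opE' p q (opE p q x) = (Qf p q : ℝ) • x := by
  have hs := E_sum x
  have hI := Complex.I_mul_I
  apply E_ext
  intro b
  rw [Qsmul, opE'_apply, kap'_apply, opE_apply, opE_apply, opE_apply, opE_apply, opE_apply]
  simp only [kap_apply]
  revert b
  apply forall5
  · simp only [z01, z11, z21, z31, z41, y01, y11, y21, y31, y41]
    linear_combination (-2 * (p : ℂ) * q + q ^ 2) * hs + (-(p : ℂ) ^ 2 * x.1 0 +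
      2 * p * q * (x.1 3 + x.1 2) - q ^ 2 * (x.1 1 + 2 * x.1 0 + x.1 4)) * hI
  · simp only [z01, z11, z21, z31, z41, y01, y11, y21, y31, y41]
    linear_combination (-2 * (p : ℂ) * q + q ^ 2) * hs + (-(p : ℂ) ^ 2 * x.1 1 +
      2 * p * q * (x.1 4 + x.1 3) - q ^ 2 * (x.1 2 + 2 * x.1 1 + x.1 0)) * hI
  · simp only [z01, z11, z21, z31, z41, y01, y11, y21, y31, y41]
    linear_combination (-2 * (p : ℂ) * q + q ^ 2) * hs + (-(p : ℂ) ^ 2 * x.1 2 +
      2 * p * q * (x.1 0 + x.1 4) - q ^ 2 * (x.1 3 + 2 * x.1 2 + x.1 1)) * hI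
  · simp only [z01, z11, z21, z31, z41, y01, y11, y21, y31, y41]
    linear_combination (-2 * (p : ℂ) * q + q ^ 2) * hs + (-(p : ℂ) ^ 2 * x.1 3 +
      2 * p * q * (x.1 1 + x.1 0) - q ^ 2 * (x.1 4 + 2 * x.1 3 + x.1 2)) * hI
  · simp only [z01, z11, z21, z31, z41, y01, y11, y21, y31, y41]
    linear_combination (-2 * (p : ℂ) * q + q ^ 2) * hs + (-(p : ℂ) ^ 2 * x.1 4 +
      2 * p * q * (x.1 2 + x.1 1) - q ^ 2 * (x.1 0 + 2 * x.1 4 + x.1 3)) * hI

theorem opE_opE' (p q : ℤ) (x : E) : opE p q (opE' p q x) = (Qf p q : ℝ) • x := by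
  have hs := E_sum x
  have hI := Complex.I_mul_I
  apply E_ext
  intro b
  rw [Qsmul, opE_apply, kap_apply, opE'_apply, opE'_apply, opE'_apply, opE'_apply, opE'_apply]
  simp only [kap'_apply]
  revert b
  apply forall5
  · simp only [z01, z11, z21, z31, z41, y01, y11, y21, y31, y41]
    linear_combination (-2 * (p : ℂ) * q + q ^ 2) * hs + (-(p : ℂ) ^ 2 * x.1 0 +
      2 * p * q * (x.1 3 + x.1 2) - q ^ 2 * (x.1 1 + 2 * x.1 0 + x.1 4)) * hI
  · simp only [z01, z11, z21, z31, z41, y01, y11, y21, y31, y41]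
    linear_combination (-2 * (p : ℂ) * q + q ^ 2) * hs + (-(p : ℂ) ^ 2 * x.1 1 +
      2 * p * q * (x.1 4 + x.1 3) - q ^ 2 * (x.1 2 + 2 * x.1 1 + x.1 0)) * hI
  · simp only [z01, z11, z21, z31, z41, y01, y11, y21, y31, y41]
    linear_combination (-2 * (p : ℂ) * q + q ^ 2) * hs + (-(p : ℂ) ^ 2 * x.1 2 +
      2 * p * q * (x.1 0 + x.1 4) - q ^ 2 * (x.1 3 + 2 * x.1 2 + x.1 1)) * hI
  · simp only [z01, z11, z21, z31, z41, y01, y11, y21, y31, y41]
    linear_combination (-2 * (p : ℂ) * q + q ^ 2) * hs + (-(p : ℂ) ^ 2 * x.1 3 +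
      2 * p * q * (x.1 1 + x.1 0) - q ^ 2 * (x.1 4 + 2 * x.1 3 + x.1 2)) * hI
  · simp only [z01, z11, z21, z31, z41, y01, y11, y21, y31, y41]
    linear_combination (-2 * (p : ℂ) * q + q ^ 2) * hs + (-(p : ℂ) ^ 2 * x.1 4 +
      2 * p * q * (x.1 2 + x.1 1) - q ^ 2 * (x.1 0 + 2 * x.1 4 + x.1 3)) * hI

theorem kap_T {x : E} (hx : x ∈ T) : kap x ∈ T := by
  show S x + S⁻¹ x + I (S (S x)) + I (S⁻¹ (S⁻¹ x)) ∈ T
  exact T.add_mem (T.add_mem (T.add_mem (S_T hx) (Sinv_T hx)) (I_T (S_T (S_T hx))))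
    (I_T (Sinv_T (Sinv_T hx)))

theorem kap'_T {x : E} (hx : x ∈ T) : kap' x ∈ T := by
  show S x + S⁻¹ x - I (S (S x)) - I (S⁻¹ (S⁻¹ x)) ∈ T
  exact T.sub_mem (T.sub_mem (T.add_mem (S_T hx) (Sinv_T hx)) (I_T (S_T (S_T hx))))
    (I_T (Sinv_T (Sinv_T hx)))

theorem opE_T (p q : ℤ) {x : E} (hx : x ∈ T) : opE p q x ∈ T := by
  show (p : ℝ) • (x + I x) - (q : ℝ) • kap x ∈ T
  rw [Int.cast_smul_eq_zsmul, Int.cast_smul_eq_zsmul]
  exact T.sub_mem (T.zsmul_mem (T.add_mem hx (I_T hx)) p) (T.zsmul_mem (kap_T hx) q)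

theorem opE'_T (p q : ℤ) {x : E} (hx : x ∈ T) : opE' p q x ∈ T := by
  show (p : ℝ) • (x - I x) - (q : ℝ) • kap' x ∈ T
  rw [Int.cast_smul_eq_zsmul, Int.cast_smul_eq_zsmul]
  exact T.sub_mem (T.zsmul_mem (T.sub_mem hx (I_T hx)) p) (T.zsmul_mem (kap'_T hx) q)

/-- `ζ = (1 + i) / √2`. -/
noncomputable def zt : ℂ := (1 + Complex.I) * ((Real.sqrt 2)⁻¹ : ℝ)

theorem sq_inv : (((Real.sqrt 2)⁻¹ : ℝ) : ℂ) * (((Real.sqrt 2)⁻¹ : ℝ) : ℂ) = 1 / 2 := by
  rw [← Complex.ofReal_mul, ← mul_inv, Real.mul_self_sqrt (by norm_num)]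
  push_cast
  norm_num

theorem zt_mul : zt * zt = Complex.I := by
  unfold zt
  have h := sq_inv
  have hI := Complex.I_mul_I
  linear_combination (1 + Complex.I) ^ 2 * h + 1 / 2 * hI

theorem conj_zt : (starRingEnd ℂ) zt = (1 - Complex.I) * ((Real.sqrt 2)⁻¹ : ℝ) := by
  unfold zt
  rw [map_mul, map_add, map_one, Complex.conj_I, Complex.conj_ofReal]
  ring

theorem conj_zt_mul : (starRingEnd ℂ) zt * zt = 1 := by
  rw [conj_zt]
  unfold zt
  have h := sq_inv
  have hI := Complex.I_mul_I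
  linear_combination (1 + Complex.I) * (1 - Complex.I) * h - 1 / 2 * hI

theorem norm_zt : ‖zt‖ = 1 := by
  have h : (Complex.normSq zt : ℂ) = 1 := by
    rw [← Complex.mul_conj, mul_comm]
    exact conj_zt_mul
  have h2 : Complex.normSq zt = 1 := by exact_mod_cast h
  rw [Complex.normSq_eq_norm_sq] at h2
  have h3 := norm_nonneg zt
  nlinarith

/-- Multiplication by `ζ`. -/
noncomputable def J : E ≃ₗᵢ[ℝ] E where
  toFun x := mk (fun b => zt * x.1 b) (by rw [← Finset.mul_sum, x.2, mul_zero])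
  invFun x := mk (fun b => (starRingEnd ℂ) zt * x.1 b) (by rw [← Finset.mul_sum, x.2, mul_zero])
  map_add' x y := E_ext fun b => by
    show zt * (x.1 b + y.1 b) = zt * x.1 b + zt * y.1 b
    ring
  map_smul' c x := E_ext fun b => by
    show zt * (c • x.1 b) = c • (zt * x.1 b)
    simp only [Complex.real_smul]
    ring
  left_inv x := E_ext fun b => by
    show (starRingEnd ℂ) zt * (zt * x.1 b) = x.1 b
    rw [← mul_assoc, conj_zt_mul, one_mul]
  right_inv x := E_ext fun b => by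
    show zt * ((starRingEnd ℂ) zt * x.1 b) = x.1 b
    rw [← mul_assoc, mul_comm zt, conj_zt_mul, one_mul]
  norm_map' x := by
    rw [E_norm, E_norm]
    congr 1
    refine Finset.sum_congr rfl fun b _ => ?_
    show ‖zt * x.1 b‖ ^ 2 = _
    rw [norm_mul, norm_zt, one_mul]

@[simp] theorem J_apply (x : E) (b : ZMod 5) : (J x).1 b = zt * x.1 b := rfl

theorem J_I : J * I = I * J := by
  apply L_ext
  intro x b
  simp only [L_mul, I_apply, J_apply]
  ring

theorem J_S : J * S = S * J := by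
  apply L_ext
  intro x b
  rfl

theorem J_H : J * H = I * H * J := by
  apply L_ext
  intro x b
  simp only [L_mul, I_apply, J_apply, H_apply, map_mul]
  rw [← zt_mul]
  have := conj_zt_mul
  linear_combination (-zt * (starRingEnd ℂ) (x.1 (3 * b))) * this

theorem conj_I : J * I * J⁻¹ = I := by rw [J_I, mul_inv_cancel_right]
theorem conj_S : J * S * J⁻¹ = S := by rw [J_S, mul_inv_cancel_right]
theorem conj_H : J * H * J⁻¹ = I * H := by rw [J_H, mul_inv_cancel_right]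

theorem conj_H' : J * (I⁻¹ * H) * J⁻¹ = H := by
  have h1 : J * (I⁻¹ * H) * J⁻¹ = (J * I * J⁻¹)⁻¹ * (J * H * J⁻¹) := by group
  rw [h1, conj_I, conj_H, inv_mul_cancel_left]

theorem F_conj : F.map (MulAut.conj J).toMonoidHom = F := by
  apply le_antisymm
  · rw [Subgroup.map_le_iff_le_comap]
    unfold F
    rw [Subgroup.closure_le]
    intro x hx
    simp only [Set.mem_insert_iff, Set.mem_singleton_iff] at hx
    show J * x * J⁻¹ ∈ F
    rcases hx with rfl | rfl | rfl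
    · rw [conj_I]; exact I_mem
    · rw [conj_S]; exact S_mem
    · rw [conj_H]; exact F.mul_mem I_mem H_mem
  · have h1 : ∀ x ∈ ({I, S, H} : Set L), x ∈ F.map (MulAut.conj J).toMonoidHom := by
      intro x hx
      simp only [Set.mem_insert_iff, Set.mem_singleton_iff] at hx
      rcases hx with rfl | rfl | rfl
      · exact ⟨I, I_mem, conj_I⟩
      · exact ⟨S, S_mem, conj_S⟩
      · exact ⟨I⁻¹ * H, F.mul_mem (F.inv_mem I_mem) H_mem, conj_H'⟩
    exact (Subgroup.closure_le _).2 h1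

/-- The automorphism `α` of the point group, conjugation by `J`. -/
noncomputable def al : F ≃* F :=
  ((MulAut.conj J).subgroupMap F).trans (MulEquiv.subgroupCongr F_conj)

theorem al_val (f : F) : (al f : L) = J * f * J⁻¹ := rfl

theorem opE_twist (p q : ℤ) {f : L} (hf : f ∈ F) :
    ∀ x, opE p q (f x) = (J * f * J⁻¹) (opE p q x) := by
  have hI := Complex.I_mul_I
  unfold F at hf
  refine Subgroup.closure_induction (p := fun g _ => ∀ x, opE p q (g x) =
    (J * g * J⁻¹) (opE p q x)) ?_ ?_ ?_ ?_ hf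
  · intro g hg x
    simp only [Set.mem_insert_iff, Set.mem_singleton_iff] at hg
    rcases hg with rfl | rfl | rfl
    · rw [conj_I]
      apply E_ext
      intro b
      rw [I_apply, opE_apply, opE_apply, kap_apply, kap_apply]
      simp only [I_apply]
      ring
    · rw [conj_S]
      apply E_ext
      intro b
      have h1 : b + 1 - 1 = b - 1 + 1 := by ring
      have h2 : b + 1 + 1 - 1 = b - 1 + 1 + 1 := by ring
      rw [S_apply, opE_apply, opE_apply, kap_apply, kap_apply]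
      simp only [S_apply]
      rw [h1, h2]
    · rw [conj_H]
      apply E_ext
      intro b
      have h1 : 3 * (b - 1) = 3 * b + 1 + 1 := by revert b; decide
      have h2 : 3 * (b + 1) = 3 * b - 1 - 1 := by revert b; decide
      have h3 : 3 * (b - 1 - 1) = 3 * b - 1 := by revert b; decide
      have h4 : 3 * (b + 1 + 1) = 3 * b + 1 := by revert b; decide
      rw [L_mul, I_apply, H_apply, opE_apply, opE_apply, kap_apply, kap_apply]
      simp only [H_apply, h1, h2, h3, h4, map_sub, map_add, map_mul, Complex.conj_I,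
        map_intCast]
      linear_combination ((p : ℂ) * (starRingEnd ℂ) (x.1 (3 * b)) - 
        q * ((starRingEnd ℂ) (x.1 (3 * b - 1 - 1)) + (starRingEnd ℂ) (x.1 (3 * b + 1 + 1)))) * hI
  · intro x
    rw [mul_one, mul_inv_cancel]
    rfl
  · intro g h _ _ ihg ihh x
    rw [L_mul, ihg, ihh, ← L_mul]
    have h3 : J * g * J⁻¹ * (J * h * J⁻¹) = J * (g * h) * J⁻¹ := by group
    rw [h3]
  · intro g _ ih x
    have h1 := ih (g⁻¹ x)
    have h2 : g (g⁻¹ x) = x := g.apply_symm_apply x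
    rw [h2] at h1
    rw [h1, ← L_mul]
    have h3 : J * g⁻¹ * J⁻¹ * (J * g * J⁻¹) = 1 := by group
    rw [h3]
    rfl

/-- The twists. -/
noncomputable def tw (p q : ℤ) : Twist T F al (Qf p q) where
  e := AddMonoidHom.mk' (fun t => ⟨opE p q t.1, opE_T p q t.2⟩) (fun s t =>
    Subtype.ext (map_add (opE p q) s.1 t.1))
  e' := AddMonoidHom.mk' (fun t => ⟨opE' p q t.1, opE'_T p q t.2⟩) (fun s t =>
    Subtype.ext (map_add (opE' p q) s.1 t.1))
  eq f t := Subtype.ext (opE_twist p q f.2 t.1)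
  h1 t := Subtype.ext ((opE'_opE p q t.1).trans (Int.cast_smul_eq_zsmul ℝ _ _))
  h2 t := Subtype.ext ((opE_opE' p q t.1).trans (Int.cast_smul_eq_zsmul ℝ _ _))

/-- For each `N` a value of the norm form prime to `N`. -/
theorem exists_coprime (N : ℤ) (hN : N ≠ 0) : ∃ p q : ℤ, IsCoprime (Qf p q) N := by
  obtain ⟨n, M, hM, hNM⟩ := Nat.exists_eq_pow_mul_and_not_dvd (Int.natAbs_ne_zero.2 hN) 3
    (by norm_num)
  have h3 : IsCoprime (3 : ℤ) (M : ℤ) :=
    Nat.Coprime.isCoprime ((Nat.Prime.coprime_iff_not_dvd Nat.prime_three).2 hM)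
  refine ⟨(M : ℤ) ^ 2, 1, ?_⟩
  have e1 : Qf ((M : ℤ) ^ 2) 1 = 3 + (M : ℤ) * (2 * M ^ 3 + 2 * M) := by unfold Qf; ring
  have c1 : IsCoprime (Qf ((M : ℤ) ^ 2) 1) (M : ℤ) := by
    rw [e1]
    exact h3.add_mul_left_left _
  have hM1 : ∃ k : ℤ, (M : ℤ) ^ 2 = 3 * k + 1 := by
    have h4 : (M : ℤ) % 3 = 1 ∨ (M : ℤ) % 3 = 2 := by omega
    obtain ⟨d, hd⟩ : ∃ d : ℤ, (M : ℤ) = 3 * d + 1 ∨ (M : ℤ) = 3 * d + 2 := ⟨(M : ℤ) / 3, by omega⟩
    rcases hd with hd | hd
    · exact ⟨3 * d ^ 2 + 2 * d, by rw [hd]; ring⟩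
    · exact ⟨3 * d ^ 2 + 4 * d + 1, by rw [hd]; ring⟩
  obtain ⟨k, hk⟩ := hM1
  have c2 : IsCoprime (Qf ((M : ℤ) ^ 2) 1) 3 := by
    rw [hk]
    have e2 : Qf (3 * k + 1) 1 = 3 * (6 * k ^ 2 + 6 * k + 2) + 1 := by unfold Qf; ring
    rw [e2]
    exact ⟨1, -(6 * k ^ 2 + 6 * k + 2), by ring⟩
  have c3 : IsCoprime (Qf ((M : ℤ) ^ 2) 1) ((3 : ℤ) ^ n * M) := (c2.pow_right).mul_right c1
  have h5 : ((3 : ℤ) ^ n * M) = |N| := by
    rw [Int.abs_eq_natAbs, hNM]
    push_cast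
    ring
  rw [h5] at c3
  rcases abs_choice N with h6 | h6
  · rwa [h6] at c3
  · rw [h6] at c3
    exact (IsCoprime.neg_right_iff _ _).1 c3

/-- **`(I, S, H)` and `(I, S, I H)` have the same type.** -/
theorem sameType_ISH {k : ℕ} (f : Fin k → F) :
    SameType (fun i => (⟨0, f i⟩ : Aff T F)) (fun i => (⟨0, al (f i)⟩ : Aff T F)) := by
  apply sameType_of_twists T_TF al
  intro N hN
  obtain ⟨p, q, h⟩ := exists_coprime N hN
  exact ⟨Qf p q, h, ⟨tw p q⟩⟩

end Pool.Agent.Q317.HC
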